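import Pool.Agent.Lib_MP_8460ec_an.Ratio

/-!
# The two homogeneity estimates
-/

set_option linter.unusedSectionVars false
set_option linter.unusedVariables false

open Finset MeasureTheory
open scoped ENNReal

namespace Pool.Agent.Lib_MP_8460ec_an

/-- `⌊1/R⌋` is at least `1/(2R)`. -/
lemma floor_ge {R : ℝ} (hR : 0 < R) (hR1 : R ≤ 1) :
    1 ≤ ⌊1 / R⌋₊ ∧ 1 ≤ 2 * R * ⌊1 / R⌋₊ ∧ R * ⌊1 / R⌋₊ ≤ 1 := by
  have h1 : 1 ≤ 1 / R := by rw [le_div_iff₀ hR]; linarith
  have h2 : 1 ≤ ⌊1 / R⌋₊ := Nat.le_floor (by simpa using h1)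
  have h3 : (1 : ℝ) ≤ ⌊1 / R⌋₊ := by exact_mod_cast h2
  have h4 := Nat.lt_floor_add_one (1 / R)
  have h5 := Nat.floor_le (show 0 ≤ 1 / R by positivity)
  have h6 : R * (1 / R) = 1 := by field_simp
  refine ⟨h2, ?_, ?_⟩
  · have : 1 / R ≤ 2 * ⌊1 / R⌋₊ := by linarith
    have := mul_le_mul_of_nonneg_left this hR.le
    linarith
  · have := mul_le_mul_of_nonneg_left h5 hR.le
    linarith

lemma ceil_le {B r : ℝ} (hB : 1 ≤ B) (hr : 0 < r) (hr1 : r ≤ 1) :
    1 ≤ ⌈B / r⌉₊ ∧ r * ⌈B / r⌉₊ ≤ 2 * B ∧ B ≤ r * ⌈B / r⌉₊ := by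
  have h1 : 1 ≤ B / r := by rw [le_div_iff₀ hr]; linarith
  have h4 := Nat.ceil_lt_add_one (show 0 ≤ B / r by positivity)
  have h5 := Nat.le_ceil (B / r)
  have h6 : r * (B / r) = B := by field_simp
  refine ⟨Nat.one_le_ceil_iff.mpr (by linarith), ?_, ?_⟩
  · have : (⌈B / r⌉₊ : ℝ) ≤ 2 * (B / r) := by linarith
    have := mul_le_mul_of_nonneg_left this hr.le
    linarith
  · have := mul_le_mul_of_nonneg_left h5 hr.le
    linarith

variable {d : ℕ} {n : Fin d → ℕ} {A : Type} [Fintype A] {g : A → Fin d → ℕ}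
variable [MeasurableSpace A] [DiscreteMeasurableSpace A] [Nonempty A]

/-- The mass of the ball of radius `R` about the point coded by `ω`. -/
noncomputable def bm (h : Data n g) (R : ℝ) (ω : ℕ → A) : ℝ :=
  (mu h (tau n g ⁻¹' Metric.ball (tau n g ω) R)).toReal

lemma one_le_bd (h : Data n g) (hd : 0 < d) : 1 ≤ bd n := by
  have := h.one_lt ⟨0, hd⟩
  have := n_le_bd (n := n) ⟨0, hd⟩
  omega

lemma mu_univ_le (h : Data n g) : mu h Set.univ ≤ 1 := by
  obtain ⟨a⟩ := ‹Nonempty A›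
  have h1 := mu_cyl_le h 1 (fun _ => a)
  have h2 : cyl n g 1 (fun _ => a) = Set.univ := by
    ext ω
    simp [mem_cyl]
  rw [h2] at h1
  refine h1.trans ?_
  rw [ENNReal.inv_le_one]
  exact_mod_cast one_le_prodT _ _

instance (h : Data n g) : IsFiniteMeasure (mu h) := ⟨(mu_univ_le h).trans_lt ENNReal.one_lt_top⟩

lemma bm_mono (h : Data n g) {r R : ℝ} (hrR : r ≤ R) (ω : ℕ → A) : bm h r ω ≤ bm h R ω := by
  apply ENNReal.toReal_mono (measure_ne_top _ _)
  exact measure_mono (Set.preimage_mono (Metric.ball_subset_ball hrR))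

lemma bm_nonneg (h : Data n g) (r : ℝ) (ω : ℕ → A) : 0 ≤ bm h r ω := ENNReal.toReal_nonneg

/-- Two-sided bounds for the mass of balls. -/
lemma exists_bm_bounds (h : Data n g) (hd : 0 < d) : ∃ c K : ℝ, 0 < c ∧ 0 < K ∧
    (∀ (ω : ℕ → A) (x : ℕ) (R : ℝ), 1 ≤ x → R * x ≤ 1 → bm h R ω * prodT n g x ω ≤ K) ∧
    (∀ (ω : ℕ → A) (x : ℕ) (r : ℝ), 1 ≤ x → (bd n : ℝ) ≤ r * x →
      c ≤ bm h r ω * prodT n g x ω) := by
  obtain ⟨u₀, hu⟩ := exists_delay hd (one_le_bd h hd)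
  set c₀ : ℝ≥0∞ := 2⁻¹ * (((bd n : ℕ) : ℝ≥0∞)⁻¹) ^ (u₀ * d) with hc₀
  have hc0 : c₀ ≠ 0 := by
    rw [hc₀]
    apply mul_ne_zero (by simp)
    apply pow_ne_zero
    rw [ENNReal.inv_ne_zero]
    exact ENNReal.natCast_ne_top _
  have hct : c₀ ≠ ⊤ := by
    rw [hc₀]
    apply ENNReal.mul_ne_top (by simp)
    apply ENNReal.pow_ne_top
    rw [ENNReal.inv_ne_top]
    have := one_le_bd h hd
    simp only [ne_eq, Nat.cast_eq_zero]
    omega
  refine ⟨c₀.toReal, ((3 ^ d * bd n ^ (d * d) : ℕ) : ℝ), ENNReal.toReal_pos hc0 hct, ?_, ?_, ?_⟩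
  · have := one_le_bd h hd
    positivity
  · intro ω x R hx hR
    have h1 := mu_ball_le h hx hR ω
    have hpos : (0 : ℝ) < prodT n g x ω := by exact_mod_cast one_le_prodT x ω
    have h2 := ENNReal.toReal_mono (by
      apply ENNReal.mul_ne_top (ENNReal.natCast_ne_top _)
      rw [ENNReal.inv_ne_top]
      have := one_le_prodT (n := n) (g := g) x ω
      simp only [ne_eq, Nat.cast_eq_zero]
      omega) h1
    rw [ENNReal.toReal_mul, ENNReal.toReal_natCast, ENNReal.toReal_inv,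
      ENNReal.toReal_natCast, ← div_eq_mul_inv, le_div_iff₀ hpos] at h2
    exact h2
  · intro ω x r hx hr
    have h1 := (le_mu_cyl h hu hx ω).trans (le_mu_ball h hd hx hr ω)
    have hpos : (0 : ℝ) < prodT n g x ω := by exact_mod_cast one_le_prodT x ω
    have h2 := ENNReal.toReal_mono (measure_ne_top _ _) h1
    rw [ENNReal.toReal_mul, ENNReal.toReal_inv,
      ENNReal.toReal_natCast, ← div_eq_mul_inv, div_le_iff₀ hpos] at h2
    exact h2

/-- The upper homogeneity estimate. -/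
lemma exists_upper (h : Data n g) (hd : 0 < d) {F : Fin d → ℕ}
    (hF : ∀ l t (ω : ℕ → A), cntT n g l t ω ≤ F l) :
    ∃ C > 0, ∀ (ω : ℕ → A) (r R : ℝ), 0 < r → r < R → R ≤ 1 →
      bm h R ω ≤ C * (R / r) ^ expo n F * bm h r ω := by
  obtain ⟨c, K, hc, hK, hup, hlo⟩ := exists_bm_bounds h hd
  have hB := one_le_bd h hd
  have hB' : (1 : ℝ) ≤ bd n := by exact_mod_cast hB
  have hF1 : ∀ l, 1 ≤ F l := fun l => by
    obtain ⟨a⟩ := ‹Nonempty A›
    exact (one_le_cntT l 0 (fun _ => a)).trans (hF l 0 (fun _ => a))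
  have hPF : (0 : ℝ) < ∏ l, (F l : ℝ) := prod_pos fun l _ => by exact_mod_cast hF1 l
  refine ⟨K / c * ((∏ l, (F l : ℝ)) * (4 * bd n : ℝ) ^ expo n F), by positivity, ?_⟩
  intro ω r R hr hrR hR1
  have hR : 0 < R := hr.trans hrR
  set X := ⌊1 / R⌋₊ with hX
  set Y := ⌈(bd n : ℝ) / r⌉₊ with hY
  obtain ⟨h1, h2, h3⟩ := floor_ge hR hR1
  obtain ⟨h4, h5, h6⟩ := ceil_le hB' hr (hrR.le.trans hR1)
  rw [← hX] at h1 h2 h3
  rw [← hY] at h4 h5 h6
  have hX' : (0 : ℝ) < X := by exact_mod_cast h1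
  have hY' : (0 : ℝ) < Y := by exact_mod_cast h4
  have hXY : X ≤ Y := by
    have : (X : ℝ) ≤ Y := by
      by_contra hc'
      push Not at hc'
      have h7 : r * Y < R * X := by
        calc r * Y < r * X := mul_lt_mul_of_pos_left hc' hr
          _ ≤ R * X := by gcongr
      linarith
    exact_mod_cast this
  have hq : (Y : ℝ) / X ≤ 4 * bd n * (R / r) := by
    rw [div_le_iff₀ hX']
    have h8 : (Y : ℝ) ≤ 2 * bd n / r := by rw [le_div_iff₀ hr]; linarith
    have h9 : 4 * (bd n : ℝ) * (R / r) * X = 2 * bd n / r * (2 * R * X) := by ring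
    rw [h9]
    refine h8.trans ?_
    have : 0 < 2 * (bd n : ℝ) / r := by positivity
    nlinarith
  have hw := winProd_le h.one_lt hF1 h1 hXY
  have hT : (prodT n g Y ω : ℝ) ≤ prodT n g X ω * winProd n F X Y := by
    exact_mod_cast prodT_le_winProd h hF hXY ω
  have hPX : (0 : ℝ) < prodT n g X ω := by exact_mod_cast one_le_prodT X ω
  have hw2 : (winProd n F X Y : ℝ)
      ≤ (∏ l, (F l : ℝ)) * (4 * bd n : ℝ) ^ expo n F * (R / r) ^ expo n F := by
    refine hw.trans ?_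
    rw [mul_assoc, ← Real.mul_rpow (by positivity) (by positivity)]
    gcongr
    · exact expo_nonneg F
  have hu1 := hup ω X R h1 h3
  have hl1 := hlo ω Y r h4 h6
  have hbr := bm_nonneg h r ω
  -- bm R * prodT X ≤ K ≤ K / c * bm r * prodT Y ≤ K / c * bm r * prodT X * winProd
  have h10 : bm h R ω * prodT n g X ω ≤ (K / c * bm h r ω * winProd n F X Y) * prodT n g X ω := by
    calc bm h R ω * prodT n g X ω ≤ K := hu1
      _ = K / c * c := by field_simp
      _ ≤ K / c * (bm h r ω * prodT n g Y ω) := by gcongr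
      _ ≤ K / c * (bm h r ω * (prodT n g X ω * winProd n F X Y)) := by gcongr
      _ = _ := by ring
  have h11 := le_of_mul_le_mul_right h10 hPX
  calc bm h R ω ≤ K / c * bm h r ω * winProd n F X Y := h11
    _ ≤ K / c * bm h r ω *
        ((∏ l, (F l : ℝ)) * (4 * bd n : ℝ) ^ expo n F * (R / r) ^ expo n F) := by gcongr
    _ = _ := by ring

/-- The lower homogeneity estimate. -/
lemma exists_lower (h : Data n g) (hd : 0 < d) {F : Fin d → ℕ} (hF1 : ∀ l, 1 ≤ F l)
    (hF : ∀ l t (ω : ℕ → A), F l ≤ cntT n g l t ω) :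
    ∃ C > 0, ∀ (ω : ℕ → A) (r R : ℝ), 0 < r → r < R → R ≤ 1 →
      C * (R / r) ^ expo n F * bm h r ω ≤ bm h R ω := by
  obtain ⟨c, K, hc, hK, hup, hlo⟩ := exists_bm_bounds h hd
  have hB := one_le_bd h hd
  have hB' : (1 : ℝ) ≤ bd n := by exact_mod_cast hB
  have hPF : (0 : ℝ) < ∏ l, (F l : ℝ) := prod_pos fun l _ => by exact_mod_cast hF1 l
  set D : ℝ := (4 * bd n : ℝ) ^ expo n F * (1 + (∏ l, (F l : ℝ)) * (K / c)) with hD
  have hDpos : 0 < D := by positivity
  refine ⟨D⁻¹, by positivity, ?_⟩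
  intro ω r R hr hrR hR1
  have hR : 0 < R := hr.trans hrR
  suffices hs : (R / r) ^ expo n F * bm h r ω ≤ D * bm h R ω by
    rw [mul_assoc, inv_mul_le_iff₀ hDpos]
    exact hs
  set X := ⌊1 / r⌋₊ with hX
  set Y := ⌈(bd n : ℝ) / R⌉₊ with hY
  obtain ⟨h1, h2, h3⟩ := floor_ge hr (hrR.le.trans hR1)
  obtain ⟨h4, h5, h6⟩ := ceil_le hB' hR hR1
  rw [← hX] at h1 h2 h3
  rw [← hY] at h4 h5 h6
  have hX' : (0 : ℝ) < X := by exact_mod_cast h1
  have hY' : (0 : ℝ) < Y := by exact_mod_cast h4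
  have he := expo_nonneg (n := n) F
  have hbr := bm_nonneg h r ω
  have hbR := bm_nonneg h R ω
  have hmono := bm_mono h hrR.le ω
  have hq : R / r ≤ 4 * bd n * ((X : ℝ) / Y) := by
    have h8 : 1 / r ≤ 2 * X := by rw [div_le_iff₀ hr]; linarith
    have h9 : R ≤ 2 * bd n / Y := by rw [le_div_iff₀ hY']; linarith
    calc R / r = R * (1 / r) := by ring
      _ ≤ (2 * bd n / Y) * (2 * X) := by gcongr
      _ = _ := by ring
  rcases le_or_gt Y X with hYX | hXY
  · have hw := le_winProd h.one_lt hF1 h4 hYX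
    have hT : (prodT n g Y ω : ℝ) * winProd n F Y X ≤ prodT n g X ω := by
      exact_mod_cast winProd_le_prodT h hF hYX ω
    have hPY : (0 : ℝ) < prodT n g Y ω := by exact_mod_cast one_le_prodT Y ω
    have hu1 := hup ω X r h1 h3
    have hl1 := hlo ω Y R h4 h6
    have h10 : (R / r) ^ expo n F ≤ (4 * bd n : ℝ) ^ expo n F *
        ((∏ l, (F l : ℝ)) * (winProd n F Y X : ℝ)) := by
      refine (Real.rpow_le_rpow (by positivity) hq he).trans ?_
      rw [Real.mul_rpow (by positivity) (by positivity)]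
      gcongr
    have h11 : ((winProd n F Y X : ℝ) * bm h r ω) * prodT n g Y ω
        ≤ (K / c * bm h R ω) * prodT n g Y ω := by
      calc ((winProd n F Y X : ℝ) * bm h r ω) * prodT n g Y ω
          = bm h r ω * (prodT n g Y ω * winProd n F Y X) := by ring
        _ ≤ bm h r ω * prodT n g X ω := by gcongr
        _ ≤ K := hu1
        _ = K / c * c := by field_simp
        _ ≤ K / c * (bm h R ω * prodT n g Y ω) := by gcongr
        _ = _ := by ring
    have h12 := le_of_mul_le_mul_right h11 hPY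
    calc (R / r) ^ expo n F * bm h r ω
        ≤ ((4 * bd n : ℝ) ^ expo n F * ((∏ l, (F l : ℝ)) * (winProd n F Y X : ℝ))) *
          bm h r ω := by gcongr
      _ = (4 * bd n : ℝ) ^ expo n F * (∏ l, (F l : ℝ)) *
          ((winProd n F Y X : ℝ) * bm h r ω) := by ring
      _ ≤ (4 * bd n : ℝ) ^ expo n F * (∏ l, (F l : ℝ)) * (K / c * bm h R ω) := by gcongr
      _ = (4 * bd n : ℝ) ^ expo n F * ((∏ l, (F l : ℝ)) * (K / c)) * bm h R ω := by ring
      _ ≤ D * bm h R ω := by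
        rw [hD]
        gcongr
        linarith
  · have hXY' : (X : ℝ) / Y ≤ 1 := by
      rw [div_le_one hY']
      exact_mod_cast hXY.le
    have h10 : (R / r) ^ expo n F ≤ (4 * bd n : ℝ) ^ expo n F := by
      apply Real.rpow_le_rpow (by positivity) _ he
      refine hq.trans ?_
      nlinarith
    calc (R / r) ^ expo n F * bm h r ω ≤ (4 * bd n : ℝ) ^ expo n F * bm h R ω := by gcongr
      _ ≤ D * bm h R ω := by
        rw [hD]
        gcongr
        have : 0 ≤ (∏ l, (F l : ℝ)) * (K / c) := by positivity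
        have h13 : 0 < (4 * bd n : ℝ) ^ expo n F := by positivity
        nlinarith

/-- Balls have positive mass. -/
lemma bm_pos (h : Data n g) (hd : 0 < d) {r : ℝ} (hr : 0 < r) (ω : ℕ → A) : 0 < bm h r ω := by
  obtain ⟨c, K, hc, hK, hup, hlo⟩ := exists_bm_bounds h hd
  have hB' : (1 : ℝ) ≤ bd n := by exact_mod_cast one_le_bd h hd
  obtain ⟨x, hx⟩ := exists_nat_ge ((bd n : ℝ) / r)
  have h1 : (bd n : ℝ) ≤ r * x := by
    rw [div_le_iff₀ hr] at hx
    linarith
  have hx1 : 1 ≤ x := by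
    by_contra hc'
    have : x = 0 := by omega
    rw [this] at h1
    simp at h1
    have := one_le_bd h hd
    omega
  have h2 := hlo ω x r hx1 h1
  have hpos : (0 : ℝ) < prodT n g x ω := by exact_mod_cast one_le_prodT x ω
  by_contra hcon
  push Not at hcon
  have := mul_nonpos_of_nonpos_of_nonneg hcon hpos.le
  linarith

end Pool.Agent.Lib_MP_8460ec_an
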