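import Mathlib

/-!
# Sponges, Assouad and lower dimension, sharp measures: definitions
-/

open MeasureTheory

namespace Pool.Agent.Lib_MP_8460ec_an

/-- The map `S_i`: `x ↦ ((x_1 + i_1) / n_1, ..., (x_d + i_d) / n_d)`. -/
noncomputable def smap {d : ℕ} (n i : Fin d → ℕ) (x : EuclideanSpace ℝ (Fin d)) :
    EuclideanSpace ℝ (Fin d) := WithLp.toLp 2 fun l => (x l + i l) / n l

/-- `K` is the Bedford-McMullen sponge defined by `1 < n_1 < ... < n_d` and the digit set `D`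
with at least two elements. -/
structure IsSponge {d : ℕ} (n : Fin d → ℕ) (D : Finset (Fin d → ℕ))
    (K : Set (EuclideanSpace ℝ (Fin d))) : Prop where
  one_lt : ∀ l, 1 < n l
  strictMono : StrictMono n
  digit_lt : ∀ i ∈ D, ∀ l, i l < n l
  two_le_card : 2 ≤ D.card
  isCompact : IsCompact K
  nonempty : K.Nonempty
  eq_iUnion : K = ⋃ i ∈ D, smap n i '' K

/-- `N_r(E)`: the least number of sets of diameter at most `r` which cover `E` (it exists for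
bounded `E` and `r > 0`). -/
noncomputable def covNum {d : ℕ} (r : ℝ) (E : Set (EuclideanSpace ℝ (Fin d))) : ℕ :=
  sInf {m : ℕ | ∃ c : Fin m → Set (EuclideanSpace ℝ (Fin d)),
    (∀ j, Metric.ediam (c j) ≤ ENNReal.ofReal r) ∧ E ⊆ ⋃ j, c j}

/-- The Assouad dimension. -/
noncomputable def dimA {d : ℕ} (K : Set (EuclideanSpace ℝ (Fin d))) : ℝ :=
  sInf {s : ℝ | 0 ≤ s ∧ ∃ C > 0, ∃ ρ > 0, ∀ r R : ℝ, 0 < r → r < R → R ≤ ρ → ∀ x ∈ K,
    (covNum r (Metric.ball x R ∩ K) : ℝ) ≤ C * (R / r) ^ s}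

/-- The lower dimension. -/
noncomputable def dimL {d : ℕ} (K : Set (EuclideanSpace ℝ (Fin d))) : ℝ :=
  sSup {s : ℝ | 0 ≤ s ∧ ∃ C > 0, ∃ ρ > 0, ∀ r R : ℝ, 0 < r → r < R → R ≤ ρ → ∀ x ∈ K,
    C * (R / r) ^ s ≤ (covNum r (Metric.ball x R ∩ K) : ℝ)}

/-- `μ` is sharp for the Assouad dimension of `K`: `μ(B(x,R)) ≤ C (R/r)^(dim_A K) μ(B(x,r))`. -/
def SharpAssouad {d : ℕ} (K : Set (EuclideanSpace ℝ (Fin d)))
    (μ : Measure (EuclideanSpace ℝ (Fin d))) : Prop :=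
  ∃ C > 0, ∃ ρ > 0, ∀ x ∈ K, ∀ r R : ℝ, 0 < r → r < R → R ≤ ρ →
    μ.real (Metric.ball x R) ≤ C * (R / r) ^ dimA K * μ.real (Metric.ball x r)

/-- `μ` is sharp for the lower dimension of `K`: it is doubling and
`C (R/r)^(dim_L K) μ(B(x,r)) ≤ μ(B(x,R))`. -/
def SharpLower {d : ℕ} (K : Set (EuclideanSpace ℝ (Fin d)))
    (μ : Measure (EuclideanSpace ℝ (Fin d))) : Prop :=
  (∃ C > 0, ∀ x ∈ K, ∀ r : ℝ, 0 < r →
    μ.real (Metric.ball x (2 * r)) ≤ C * μ.real (Metric.ball x r)) ∧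
  ∃ C > 0, ∃ ρ > 0, ∀ x ∈ K, ∀ r R : ℝ, 0 < r → r < R → R ≤ ρ →
    C * (R / r) ^ dimL K * μ.real (Metric.ball x r) ≤ μ.real (Metric.ball x R)

end Pool.Agent.Lib_MP_8460ec_an
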