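import Pool.Agent.Lib_MP_8460ec_an.Balls
import Pool.Agent.Lib_MP_8460ec_an.Defs

/-!
# Counting cubes, and the two dimensions
-/

set_option linter.unusedSectionVars false
set_option linter.unusedVariables false

open Finset MeasureTheory
open scoped ENNReal

namespace Pool.Agent.Lib_MP_8460ec_an

variable {d : ℕ} {n : Fin d → ℕ} {A : Type} [Fintype A] {g : A → Fin d → ℕ}

/-- The code of a point at level `y`. -/
def code (n : Fin d → ℕ) (g : A → Fin d → ℕ) (y : ℕ) (ω : ℕ → A) : Fin d → ℕ :=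
  fun l => U n g l (Nat.log (n l) y) ω

lemma mem_cyl_iff_code (h : Data n g) {y : ℕ} {ω ω' : ℕ → A} :
    ω' ∈ cyl n g y ω ↔ code n g y ω' = code n g y ω := by
  constructor
  · intro hω
    funext l
    exact num_congr (hω l)
  · intro hc l
    exact digits_eq_of_num_eq (dig_lt h l ω') (dig_lt h l ω) (congrFun hc l)

lemma num_lt {b : ℕ} {u : ℕ → ℕ} (hu : ∀ s, u s < b) (m : ℕ) : num b u m < b ^ m := by
  induction m with
  | zero => simp [num]
  | succ m ih =>
    rw [num_succ, pow_succ]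
    have := hu m
    calc num b u m * b + u m < num b u m * b + b := by omega
      _ = (num b u m + 1) * b := by ring
      _ ≤ b ^ m * b := Nat.mul_le_mul_right _ ih

/-- The box of all codes. -/
def box (n : Fin d → ℕ) (y : ℕ) : Finset (Fin d → ℕ) :=
  Fintype.piFinset fun l => range (n l ^ Nat.log (n l) y)

lemma code_mem_box (h : Data n g) (y : ℕ) (ω : ℕ → A) : code n g y ω ∈ box n y := by
  rw [box, Fintype.mem_piFinset]
  intro l
  rw [mem_range]
  exact num_lt (dig_lt h l ω) _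

open Classical in
/-- The codes of the points of a set. -/
noncomputable def codes (n : Fin d → ℕ) (g : A → Fin d → ℕ) (y : ℕ) (S : Set (ℕ → A)) :
    Finset (Fin d → ℕ) := (box n y).filter fun c => ∃ ω ∈ S, code n g y ω = c

lemma mem_codes (h : Data n g) {y : ℕ} {S : Set (ℕ → A)} {c : Fin d → ℕ} :
    c ∈ codes n g y S ↔ ∃ ω ∈ S, code n g y ω = c := by
  classical
  rw [codes, mem_filter]
  constructor
  · exact fun h => h.2
  · rintro ⟨ω, h1, h2⟩
    refine ⟨?_, ω, h1, h2⟩
    rw [← h2]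
    exact code_mem_box h y ω

/-- Covering by the images of cylinders. -/
lemma covNum_le (h : Data n g) (hd : 0 < d) {y : ℕ} (hy : 1 ≤ y) {r : ℝ}
    (hr : (bd n : ℝ) ≤ r * y) {S : Set (ℕ → A)} {E : Set (EuclideanSpace ℝ (Fin d))}
    (hE : E ⊆ tau n g '' S) :
    ∃ c : Fin (codes n g y S).card → Set (EuclideanSpace ℝ (Fin d)),
      (∀ j, Metric.ediam (c j) ≤ ENNReal.ofReal r) ∧ E ⊆ ⋃ j, c j := by
  have hy' : (0 : ℝ) < y := by exact_mod_cast hy
  refine ⟨fun j => tau n g '' {ω | code n g y ω = ((codes n g y S).equivFin.symm j).1}, ?_, ?_⟩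
  · intro j
    apply Metric.ediam_le
    rintro _ ⟨ω, hω, rfl⟩ _ ⟨ω', hω', rfl⟩
    rw [edist_dist]
    apply ENNReal.ofReal_le_ofReal
    have h1 : ω ∈ cyl n g y ω' := (mem_cyl_iff_code h).mpr (by rw [hω, hω'])
    refine (dist_lt_of_mem_cyl h hd hy h1).le.trans ?_
    rw [div_le_iff₀ hy']
    exact hr
  · intro z hz
    obtain ⟨ω, hω, rfl⟩ := hE hz
    rw [Set.mem_iUnion]
    refine ⟨(codes n g y S).equivFin ⟨code n g y ω, (mem_codes h).mpr ⟨ω, hω, rfl⟩⟩, ω, ?_, rfl⟩
    simp

variable [MeasurableSpace A] [DiscreteMeasurableSpace A] [Nonempty A]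

lemma prodN_pos (x : ℕ) (ω : ℕ → A) : 0 < prodN n g x ω := by
  have := prodN_ne_zero (n := n) (g := g) x ω
  exact Nat.pos_of_ne_zero fun h => this (by rw [h]; simp)

lemma nu_real_cyl (h : Data n g) (x : ℕ) (ω : ℕ → A) :
    (nu h).real (cyl n g x ω) = ((prodN n g x ω : ℕ) : ℝ)⁻¹ := by
  rw [measureReal_def, nu_cyl h, ENNReal.toReal_inv, ENNReal.toReal_natCast]

/-- Few cubes of level `y` in a cube of level `x`. -/
lemma card_le (h : Data n g) {x y : ℕ} (hxy : x ≤ y) (ω₀ : ℕ → A) (T : Finset (Fin d → ℕ))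
    (P : ℕ) (hT : ∀ c ∈ T, ∃ ω ∈ cyl n g x ω₀, code n g y ω = c ∧
      prodN n g y ω ≤ prodN n g x ω₀ * P) : T.card ≤ P := by
  classical
  rcases T.eq_empty_or_nonempty with rfl | hne
  · simp
  choose! rep hrep using hT
  have hP : 0 < P := by
    obtain ⟨c, hc⟩ := hne
    have h1 := (hrep c hc).2.2
    have h2 := prodN_pos (n := n) (g := g) y (rep c)
    by_contra hP
    have : P = 0 := by omega
    rw [this] at h1
    omega
  have hdisj : (T : Set (Fin d → ℕ)).PairwiseDisjoint fun c => cyl n g y (rep c) := by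
    intro c hc c' hc' hcc
    rw [Function.onFun, Set.disjoint_left]
    intro ω h1 h2
    rw [mem_cyl_iff_code h] at h1 h2
    apply hcc
    rw [← (hrep c hc).2.1, ← (hrep c' hc').2.1, ← h1, ← h2]
  have h1 : ∑ c ∈ T, (nu h).real (cyl n g y (rep c)) ≤ (nu h).real (cyl n g x ω₀) := by
    rw [← measureReal_biUnion_finset hdisj (fun c _ => measurableSet_cyl h y _)]
    apply measureReal_mono _ (measure_ne_top _ _)
    intro ω hω
    simp only [Set.mem_iUnion] at hω
    obtain ⟨c, hc, hω⟩ := hω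
    rw [← cyl_congr (hrep c hc).1]
    exact cyl_anti hxy _ hω
  have hx0 : (0 : ℝ) < prodN n g x ω₀ := by exact_mod_cast prodN_pos x ω₀
  have hP' : (0 : ℝ) < P := by exact_mod_cast hP
  have h2 : (T.card : ℝ) * ((prodN n g x ω₀ : ℝ) * P)⁻¹ ≤ (prodN n g x ω₀ : ℝ)⁻¹ := by
    rw [← nu_real_cyl h x ω₀]
    refine le_trans ?_ h1
    rw [← nsmul_eq_mul, ← sum_const]
    refine sum_le_sum fun c hc => ?_
    rw [nu_real_cyl h]
    have h3 : (0 : ℝ) < prodN n g y (rep c) := by exact_mod_cast prodN_pos y (rep c)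
    have h4 : (prodN n g y (rep c) : ℝ) ≤ (prodN n g x ω₀ : ℝ) * P := by
      exact_mod_cast (hrep c hc).2.2
    exact inv_anti₀ h3 h4
  rw [mul_inv, ← mul_assoc, mul_comm (T.card : ℝ), mul_assoc, ← div_eq_mul_inv] at h2
  have h5 : (T.card : ℝ) / P ≤ 1 := by
    have := mul_le_mul_of_nonneg_left h2 hx0.le
    rwa [← mul_assoc, mul_inv_cancel₀ hx0.ne', one_mul] at this
  rw [div_le_one hP'] at h5
  exact_mod_cast h5

/-- Many cubes of level `y` in a cube of level `x`. -/
lemma le_card (h : Data n g) {x y : ℕ} (ω₀ : ℕ → A) (P : ℕ)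
    (hP : ∀ ω ∈ cyl n g x ω₀, prodN n g x ω₀ * P ≤ prodN n g y ω) :
    P ≤ (codes n g y (cyl n g x ω₀)).card := by
  classical
  rcases Nat.eq_zero_or_pos P with rfl | hP0
  · exact Nat.zero_le _
  have hrep : ∀ c ∈ codes n g y (cyl n g x ω₀), ∃ ω ∈ cyl n g x ω₀, code n g y ω = c :=
    fun c hc => (mem_codes h).mp hc
  choose! rep hrep using hrep
  have hx0 : (0 : ℝ) < prodN n g x ω₀ := by exact_mod_cast prodN_pos x ω₀
  have hP' : (0 : ℝ) < P := by exact_mod_cast hP0
  have h1 : (nu h).real (cyl n g x ω₀)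
      ≤ ∑ c ∈ codes n g y (cyl n g x ω₀), (nu h).real (cyl n g y (rep c)) := by
    refine le_trans (measureReal_mono ?_ (measure_ne_top _ _)) (measureReal_biUnion_finset_le _ _)
    intro ω hω
    simp only [Set.mem_iUnion]
    have hc : code n g y ω ∈ codes n g y (cyl n g x ω₀) := (mem_codes h).mpr ⟨ω, hω, rfl⟩
    refine ⟨_, hc, ?_⟩
    rw [mem_cyl_iff_code h, (hrep _ hc).2]
  have h2 : (prodN n g x ω₀ : ℝ)⁻¹
      ≤ ((codes n g y (cyl n g x ω₀)).card : ℝ) * ((prodN n g x ω₀ : ℝ) * P)⁻¹ := by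
    rw [← nu_real_cyl h x ω₀, ← nsmul_eq_mul, ← sum_const]
    refine h1.trans (sum_le_sum fun c hc => ?_)
    rw [nu_real_cyl h]
    have h4 : (prodN n g x ω₀ : ℝ) * P ≤ (prodN n g y (rep c) : ℝ) := by
      exact_mod_cast hP _ (hrep c hc).1
    exact inv_anti₀ (by positivity) h4
  rw [mul_inv, ← mul_assoc, mul_comm (Nat.cast _ : ℝ) (prodN n g x ω₀ : ℝ)⁻¹, mul_assoc,
    ← div_eq_mul_inv] at h2
  have h5 : 1 ≤ ((codes n g y (cyl n g x ω₀)).card : ℝ) / P := by
    have := mul_le_mul_of_nonneg_left h2 hx0.le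
    rwa [← mul_assoc, mul_inv_cancel₀ hx0.ne', one_mul] at this
  rw [one_le_div hP'] at h5
  exact_mod_cast h5

/-- Upper bound for covering numbers of balls. -/
lemma covNum_ball_le (h : Data n g) (hd : 0 < d) {x y : ℕ} (hx : 1 ≤ x) (hxy : x ≤ y)
    {r R : ℝ} (hR : R * x ≤ 1) (hr : (bd n : ℝ) ≤ r * y) (ω : ℕ → A) (P : ℕ)
    (hP : ∀ ω', (∀ j, NbAt n g j x ω ω') → prodN n g y ω' ≤ prodN n g x ω' * P) :
    covNum r (Metric.ball (tau n g ω) R ∩ Set.range (tau n g)) ≤ 3 ^ d * P := by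
  classical
  have hx' : (0 : ℝ) < x := by exact_mod_cast hx
  set S : Set (ℕ → A) := {ω' | ∀ j, NbAt n g j x ω ω'} with hS
  have hE : Metric.ball (tau n g ω) R ∩ Set.range (tau n g) ⊆ tau n g '' S := by
    rintro _ ⟨h1, ω', rfl⟩
    refine ⟨ω', fun j => nbAt_of_dist h hx ?_ j, rfl⟩
    rw [Metric.mem_ball, dist_comm] at h1
    refine h1.trans_le ?_
    rw [le_div_iff₀ hx']
    exact hR
  have hcard : (codes n g y S).card ≤ 3 ^ d * P := by
    have hsub : codes n g y S ⊆ (univ : Finset (Fin d → Fin 3)).biUnion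
        fun v => codes n g y (pos n g x ω v) := by
      intro c hc
      obtain ⟨ω', hω', rfl⟩ := (mem_codes h).mp hc
      obtain ⟨v, hv⟩ := exists_pos hω'
      rw [mem_biUnion]
      exact ⟨v, mem_univ _, (mem_codes h).mpr ⟨ω', hv, rfl⟩⟩
    refine (card_le_card hsub).trans (card_biUnion_le.trans ?_)
    have h1 : ∀ v ∈ (univ : Finset (Fin d → Fin 3)), (codes n g y (pos n g x ω v)).card ≤ P := by
      intro v _
      rcases Set.eq_empty_or_nonempty (pos n g x ω v) with he | ⟨ω₁, hω₁⟩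
      · have : codes n g y (pos n g x ω v) = ∅ := by
          rw [he]
          ext c
          rw [mem_codes h]
          simp
        rw [this, card_empty]
        exact Nat.zero_le _
      · apply card_le h hxy ω₁
        intro c hc
        obtain ⟨ω', hω', rfl⟩ := (mem_codes h).mp hc
        have h2 := pos_subset_cyl h hω₁ hω'
        refine ⟨ω', h2, rfl, ?_⟩
        rw [← prodN_congr h h2]
        exact hP ω' (nbAt_of_pos hω')
    refine (sum_le_sum h1).trans ?_
    rw [sum_const, card_univ, Fintype.card_pi, prod_const, card_univ, Fintype.card_fin,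
      Fintype.card_fin, smul_eq_mul]
  exact (Nat.sInf_le (covNum_le h hd (hx.trans hxy) hr hE)).trans hcard

/-- Lower bound for covering numbers of balls. -/
lemma le_covNum_ball (h : Data n g) (hd : 0 < d) {x y : ℕ} (hx : 1 ≤ x) (hy : 1 ≤ y)
    {r R : ℝ} (hr0 : 0 < r) (hR : (bd n : ℝ) ≤ R * x) (hr : r * y < 1) (ω : ℕ → A) (P : ℕ)
    (hP : ∀ ω' ∈ cyl n g x ω, prodN n g x ω * P ≤ prodN n g y ω') :
    P ≤ 3 ^ d * covNum r (Metric.ball (tau n g ω) R ∩ Set.range (tau n g)) := by
  classical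
  have hx' : (0 : ℝ) < x := by exact_mod_cast hx
  have hy' : (0 : ℝ) < y := by exact_mod_cast hy
  set E := Metric.ball (tau n g ω) R ∩ Set.range (tau n g) with hE
  have hne : {m : ℕ | ∃ c : Fin m → Set (EuclideanSpace ℝ (Fin d)),
      (∀ j, Metric.ediam (c j) ≤ ENNReal.ofReal r) ∧ E ⊆ ⋃ j, c j}.Nonempty := by
    obtain ⟨z, hz⟩ := exists_nat_ge ((bd n : ℝ) / r)
    have h1 : (bd n : ℝ) ≤ r * z := by
      rw [div_le_iff₀ hr0] at hz
      linarith
    have hz1 : 1 ≤ z := by
      by_contra hc'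
      have : z = 0 := by omega
      rw [this] at h1
      simp at h1
      have := one_le_bd h hd
      omega
    exact ⟨_, covNum_le (S := Set.univ) h hd hz1 h1 (by
      rintro _ ⟨_, ω', rfl⟩
      exact ⟨ω', trivial, rfl⟩)⟩
  obtain ⟨c, hc1, hc2⟩ := Nat.sInf_mem hne
  change ∀ j : Fin (covNum r E), _ at hc1
  refine (le_card h ω P hP).trans ?_
  have hrep : ∀ k ∈ codes n g y (cyl n g x ω), ∃ ω' ∈ cyl n g x ω, code n g y ω' = k :=
    fun k hk => (mem_codes h).mp hk
  choose! rep hrep using hrep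
  have hidx : ∀ k ∈ codes n g y (cyl n g x ω), ∃ j : Fin (covNum r E), tau n g (rep k) ∈ c j := by
    intro k hk
    have h1 : tau n g (rep k) ∈ E := by
      refine ⟨?_, rep k, rfl⟩
      rw [Metric.mem_ball]
      refine (dist_lt_of_mem_cyl h hd hx (hrep k hk).1).trans_le ?_
      rw [div_le_iff₀ hx']
      exact hR
    exact Set.mem_iUnion.mp (hc2 h1)
  rcases (codes n g y (cyl n g x ω)).eq_empty_or_nonempty with he | ⟨k₀, hk₀⟩
  · rw [he, card_empty]
    exact Nat.zero_le _
  have : Nonempty (Fin (covNum r E)) := ⟨(hidx k₀ hk₀).choose⟩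
  choose! I hI using hidx
  have hfib : ∀ j ∈ (codes n g y (cyl n g x ω)).image I,
      ((codes n g y (cyl n g x ω)).filter fun k => I k = j).card ≤ 3 ^ d := by
    intro j hj
    obtain ⟨k₁, hk₁, rfl⟩ := mem_image.mp hj
    have hv : ∀ k ∈ (codes n g y (cyl n g x ω)).filter (fun k => I k = I k₁),
        ∃ v, rep k ∈ pos n g y (rep k₁) v := by
      intro k hk
      rw [mem_filter] at hk
      apply exists_pos
      apply nbAt_of_dist h hy
      have h1 : edist (tau n g (rep k₁)) (tau n g (rep k)) ≤ ENNReal.ofReal r := by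
        refine le_trans (Metric.edist_le_ediam_of_mem (hI k₁ hk₁) ?_) (hc1 (I k₁))
        rw [← hk.2]
        exact hI k hk.1
      rw [edist_dist, ENNReal.ofReal_le_ofReal_iff hr0.le] at h1
      refine h1.trans_lt ?_
      rw [lt_div_iff₀ hy']
      exact hr
    choose! v hv using hv
    have hinj : Set.InjOn v ((codes n g y (cyl n g x ω)).filter (fun k => I k = I k₁)) := by
      intro k hk k' hk' hvv
      have h1 := hv k hk
      have h2 := hv k' hk'
      rw [← hvv] at h2
      rw [← (hrep k (mem_filter.mp hk).1).2, ← (hrep k' (mem_filter.mp hk').1).2]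
      funext l
      have h3 := h1 l
      have h4 := h2 l
      simp only [code]
      omega
    calc ((codes n g y (cyl n g x ω)).filter fun k => I k = I k₁).card
        = (((codes n g y (cyl n g x ω)).filter fun k => I k = I k₁).image v).card :=
          (card_image_of_injOn hinj).symm
      _ ≤ (univ : Finset (Fin d → Fin 3)).card := card_le_card (subset_univ _)
      _ = 3 ^ d := by
        rw [card_univ, Fintype.card_pi, prod_const, card_univ, Fintype.card_fin,
          Fintype.card_fin]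
  refine (card_le_mul_card_image _ _ hfib).trans ?_
  refine Nat.mul_le_mul_left _ ?_
  calc ((codes n g y (cyl n g x ω)).image I).card ≤ (univ : Finset (Fin (covNum r E))).card :=
        card_le_card (subset_univ _)
    _ = covNum r E := by rw [card_univ, Fintype.card_fin]

end Pool.Agent.Lib_MP_8460ec_an
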