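import Pool.Agent.Lib_MP_8460ec_an.Mass

/-!
# The coding map
-/

set_option linter.unusedSectionVars false
set_option linter.unusedVariables false

open Finset MeasureTheory
open scoped ENNReal

namespace Pool.Agent.Lib_MP_8460ec_an

variable {d : ℕ} {A : Type} [Fintype A] {n : Fin d → ℕ} {g : A → Fin d → ℕ}

/-- The `l`-th coordinate of the point coded by `ω`. -/
noncomputable def coord (n : Fin d → ℕ) (g : A → Fin d → ℕ) (l : Fin d) (ω : ℕ → A) : ℝ :=
  ∑' s, (g (ω s) l : ℝ) / (n l : ℝ) ^ (s + 1)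

lemma term_le (h : Data n g) (l : Fin d) (ω : ℕ → A) (s : ℕ) :
    (g (ω s) l : ℝ) / (n l : ℝ) ^ (s + 1) ≤ ((n l : ℝ) - 1) / n l * ((n l : ℝ)⁻¹) ^ s := by
  have h1 : (1 : ℝ) < n l := by exact_mod_cast h.one_lt l
  have h2 : (g (ω s) l : ℝ) + 1 ≤ n l := by exact_mod_cast h.lt (ω s) l
  rw [inv_pow, pow_succ, div_mul_eq_mul_div, ← div_eq_mul_inv, div_div,
    div_le_div_iff₀ (by positivity) (by positivity), mul_comm ((n l : ℝ) ^ s) (n l : ℝ)]
  gcongr
  linarith

lemma hasSum_bound (h : Data n g) (l : Fin d) :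
    HasSum (fun s : ℕ => ((n l : ℝ) - 1) / n l * ((n l : ℝ)⁻¹) ^ s) 1 := by
  have h1 : (1 : ℝ) < n l := by exact_mod_cast h.one_lt l
  have h2 := (hasSum_geometric_of_lt_one (r := (n l : ℝ)⁻¹) (by positivity)
    (inv_lt_one_of_one_lt₀ h1)).mul_left (((n l : ℝ) - 1) / n l)
  have h3 : ((n l : ℝ) - 1) / n l * (1 - (n l : ℝ)⁻¹)⁻¹ = 1 := by
    have : (n l : ℝ) - 1 ≠ 0 := by linarith
    field_simp
  rwa [h3] at h2

lemma term_nonneg (h : Data n g) (l : Fin d) (ω : ℕ → A) (s : ℕ) :
    0 ≤ (g (ω s) l : ℝ) / (n l : ℝ) ^ (s + 1) := by positivity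

lemma coord_summable (h : Data n g) (l : Fin d) (ω : ℕ → A) :
    Summable fun s => (g (ω s) l : ℝ) / (n l : ℝ) ^ (s + 1) :=
  Summable.of_nonneg_of_le (term_nonneg h l ω) (term_le h l ω) (hasSum_bound h l).summable

lemma coord_nonneg (h : Data n g) (l : Fin d) (ω : ℕ → A) : 0 ≤ coord n g l ω :=
  tsum_nonneg (term_nonneg h l ω)

lemma coord_le_one (h : Data n g) (l : Fin d) (ω : ℕ → A) : coord n g l ω ≤ 1 := by
  rw [← (hasSum_bound h l).tsum_eq]
  exact (coord_summable h l ω).tsum_le_tsum (term_le h l ω) (hasSum_bound h l).summable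

lemma coord_shift (h : Data n g) (l : Fin d) (ω : ℕ → A) :
    coord n g l ω = (g (ω 0) l + coord n g l fun s => ω (s + 1)) / n l := by
  have h1 : (1 : ℝ) < n l := by exact_mod_cast h.one_lt l
  rw [coord, (coord_summable h l ω).tsum_eq_zero_add, coord, add_div, ← tsum_div_const]
  congr 1
  · simp
  · refine tsum_congr fun s => ?_
    rw [div_div, ← pow_succ]

lemma coord_eq (h : Data n g) (l : Fin d) (m : ℕ) (ω : ℕ → A) :
    coord n g l ω = (U n g l m ω + coord n g l fun s => ω (s + m)) / (n l : ℝ) ^ m := by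
  have h1 : (1 : ℝ) < n l := by exact_mod_cast h.one_lt l
  induction m with
  | zero => simp [U, num]
  | succ m ih =>
    rw [ih, coord_shift h l (fun s => ω (s + m))]
    simp only [U, num_succ, zero_add]
    have h2 : (fun s => ω (s + 1 + m)) = fun s => ω (s + (m + 1)) := by
      funext s
      congr 1
      ring
    rw [h2]
    push_cast
    have h3 : (n l : ℝ) ≠ 0 := by positivity
    rw [pow_succ]
    field_simp
    ring

lemma nbAt_of_coord (h : Data n g) {l : Fin d} {x : ℕ} (hx : 1 ≤ x) {ω ω' : ℕ → A}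
    (hd : |coord n g l ω - coord n g l ω'| < 1 / x) : NbAt n g l x ω ω' := by
  have h1 : (1 : ℝ) < n l := by exact_mod_cast h.one_lt l
  set m := Nat.log (n l) x with hm
  have hp : (n l : ℝ) ^ m ≤ x := by
    exact_mod_cast Nat.pow_log_le_self (n l) (x := x) (by omega)
  have hpp : (0 : ℝ) < (n l : ℝ) ^ m := by positivity
  have hxp : (0 : ℝ) < x := by exact_mod_cast hx
  rw [coord_eq h l m ω, coord_eq h l m ω', ← sub_div, abs_div, abs_of_pos hpp,
    div_lt_div_iff₀ hpp hxp] at hd
  have h2 : |((U n g l m ω : ℝ) + coord n g l fun s => ω (s + m)) -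
      (U n g l m ω' + coord n g l fun s => ω' (s + m))| < 1 := by
    by_contra hc
    push Not at hc
    nlinarith
  rw [abs_lt] at h2
  have h3 := coord_nonneg h l fun s => ω (s + m)
  have h4 := coord_nonneg h l fun s => ω' (s + m)
  have h5 := coord_le_one h l fun s => ω (s + m)
  have h6 := coord_le_one h l fun s => ω' (s + m)
  unfold NbAt
  rw [← hm]
  constructor
  · have h7 : (U n g l m ω : ℝ) < U n g l m ω' + 2 := by linarith
    have h8 : U n g l m ω < U n g l m ω' + 2 := by exact_mod_cast h7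
    omega
  · have h7 : (U n g l m ω' : ℝ) < U n g l m ω + 2 := by linarith
    have h8 : U n g l m ω' < U n g l m ω + 2 := by exact_mod_cast h7
    omega

lemma coord_close (h : Data n g) (l : Fin d) {x : ℕ} (hx : 1 ≤ x) {ω ω' : ℕ → A}
    (hω : ∀ s < Nat.log (n l) x, g (ω' s) l = g (ω s) l) :
    |coord n g l ω' - coord n g l ω| < n l / x := by
  have h1 : (1 : ℝ) < n l := by exact_mod_cast h.one_lt l
  set m := Nat.log (n l) x with hm
  have hp : (x : ℝ) < (n l : ℝ) ^ m * n l := by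
    rw [← pow_succ]
    exact_mod_cast Nat.lt_pow_succ_log_self (h.one_lt l) x
  have hpp : (0 : ℝ) < (n l : ℝ) ^ m := by positivity
  have hxp : (0 : ℝ) < x := by exact_mod_cast hx
  have hU : U n g l m ω' = U n g l m ω := num_congr hω
  rw [coord_eq h l m ω, coord_eq h l m ω', hU, ← sub_div, abs_div, abs_of_pos hpp,
    div_lt_div_iff₀ hpp hxp]
  have h3 := coord_nonneg h l fun s => ω (s + m)
  have h4 := coord_nonneg h l fun s => ω' (s + m)
  have h5 := coord_le_one h l fun s => ω (s + m)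
  have h6 := coord_le_one h l fun s => ω' (s + m)
  have h7 : |((U n g l m ω : ℝ) + coord n g l fun s => ω' (s + m)) -
      (U n g l m ω + coord n g l fun s => ω (s + m))| ≤ 1 := by
    rw [abs_le]
    constructor <;> linarith
  nlinarith

/-- The point coded by `ω`. -/
noncomputable def tau (n : Fin d → ℕ) (g : A → Fin d → ℕ) (ω : ℕ → A) :
    EuclideanSpace ℝ (Fin d) := WithLp.toLp 2 fun l => coord n g l ω

lemma tau_apply (ω : ℕ → A) (l : Fin d) : tau n g ω l = coord n g l ω := rfl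

lemma abs_coord_le_dist (l : Fin d) (ω ω' : ℕ → A) :
    |coord n g l ω - coord n g l ω'| ≤ dist (tau n g ω) (tau n g ω') := by
  have := PiLp.norm_apply_le (tau n g ω - tau n g ω') l
  rwa [Real.norm_eq_abs, ← dist_eq_norm] at this

lemma dist_le_sum (x y : EuclideanSpace ℝ (Fin d)) : dist x y ≤ ∑ l, |x l - y l| := by
  rw [EuclideanSpace.dist_eq]
  apply Real.sqrt_le_iff.mpr
  refine ⟨sum_nonneg fun _ _ => abs_nonneg _, ?_⟩
  simp only [Real.dist_eq]
  exact sum_sq_le_sq_sum_of_nonneg (fun _ _ => abs_nonneg _)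

lemma dist_lt_of_mem_cyl (h : Data n g) (hd : 0 < d) {x : ℕ} (hx : 1 ≤ x) {ω ω' : ℕ → A}
    (hω : ω' ∈ cyl n g x ω) : dist (tau n g ω') (tau n g ω) < bd n / x := by
  refine (dist_le_sum _ _).trans_lt ?_
  have : ((bd n : ℕ) : ℝ) / x = ∑ l, (n l : ℝ) / x := by
    rw [bd, Nat.cast_sum, sum_div]
  rw [this]
  have : Nonempty (Fin d) := ⟨⟨0, hd⟩⟩
  refine sum_lt_sum_of_nonempty univ_nonempty fun l _ => ?_
  exact coord_close h l hx (hω l)

/-- Neighbouring cubes at level `x` contain a small ball. -/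
lemma nbAt_of_dist (h : Data n g) {x : ℕ} (hx : 1 ≤ x) {ω ω' : ℕ → A}
    (hd : dist (tau n g ω) (tau n g ω') < 1 / x) (l : Fin d) : NbAt n g l x ω ω' :=
  nbAt_of_coord h hx ((abs_coord_le_dist l ω ω').trans_lt hd)

variable [MeasurableSpace A] [DiscreteMeasurableSpace A] [Nonempty A]

lemma measurable_coord (h : Data n g) (l : Fin d) :
    Measurable (coord n g l : (ℕ → A) → ℝ) := by
  refine measurable_of_tendsto_metrizable
    (f := fun (m : ℕ) (ω : ℕ → A) => (U n g l m ω : ℝ) / (n l : ℝ) ^ m) (fun m => ?_) ?_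
  · apply measurable_of_dep _ m
    intro ω ω' hω
    have : U n g l m ω = U n g l m ω' := num_congr fun s hs => by simp only [hω s hs]
    rw [this]
  · rw [tendsto_pi_nhds]
    intro ω
    have h1 : (1 : ℝ) < n l := by exact_mod_cast h.one_lt l
    have h2 : Filter.Tendsto (fun m : ℕ => ((n l : ℝ)⁻¹) ^ m) Filter.atTop (nhds 0) :=
      tendsto_pow_atTop_nhds_zero_of_lt_one (by positivity) (inv_lt_one_of_one_lt₀ h1)
    rw [tendsto_iff_dist_tendsto_zero]
    refine squeeze_zero (fun _ => dist_nonneg) (fun m => ?_) h2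
    rw [Real.dist_eq, coord_eq h l m ω, ← sub_div, abs_div,
      abs_of_pos (show (0 : ℝ) < (n l : ℝ) ^ m by positivity), inv_pow, ← one_div]
    refine div_le_div_of_nonneg_right ?_ (by positivity)
    have h3 := coord_nonneg h l fun s => ω (s + m)
    have h4 := coord_le_one h l fun s => ω (s + m)
    rw [abs_le]
    constructor <;> linarith

lemma measurable_tau (h : Data n g) :
    Measurable (tau n g : (ℕ → A) → EuclideanSpace ℝ (Fin d)) := by
  unfold tau
  exact (WithLp.measurable_toLp 2 _).comp (measurable_pi_lambda _ fun l => measurable_coord h l)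

end Pool.Agent.Lib_MP_8460ec_an
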