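import Pool.Agent.Lib_MP_8460ec_an.Weights

/-!
# Corrections are rare
-/

set_option linter.unusedSectionVars false
set_option linter.unusedVariables false

open Finset MeasureTheory
open scoped ENNReal

namespace Pool.Agent.Lib_MP_8460ec_an

variable {d : ℕ} {A : Type} [Fintype A] {n : Fin d → ℕ} {g : A → Fin d → ℕ}

lemma log_mul_ge {b a q e : ℕ} (hb : 1 < b) (ha : a ≠ 0) (hq : b ^ e ≤ q) :
    Nat.log b a + e ≤ Nat.log b (a * q) := by
  apply Nat.le_log_of_pow_le hb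
  rw [pow_add]
  exact Nat.mul_le_mul (Nat.pow_log_le_self b ha) hq

lemma two_mul_pow_le {a : ℕ} (ha : 0 < a) : 2 * a ^ a ≤ (a + 1) ^ a := by
  rw [add_pow]
  have h1 : ({a, a - 1} : Finset ℕ) ⊆ range (a + 1) := by
    intro x hx
    simp only [mem_insert, mem_singleton] at hx
    rw [mem_range]
    omega
  refine le_trans ?_ (sum_le_sum_of_subset h1)
  rw [sum_pair (by omega)]
  have h2 : a.choose (a - 1) = a := by
    rw [Nat.choose_symm_of_eq_add (show a = (a - 1) + 1 by omega)]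
    simp
  rw [h2]
  have h3 : a ^ (a - 1) * a = a ^ a := by
    rw [← pow_succ]
    congr 1
    omega
  simp only [Nat.choose_self, one_pow, mul_one, Nat.sub_self, pow_zero, Nat.cast_id]
  rw [h3]
  omega

lemma pow_mul_two_pow_le {a b v t : ℕ} (ha : 0 < a) (hab : a < b) (hv : v * a ≤ t) :
    a ^ t * 2 ^ v ≤ b ^ t := by
  obtain ⟨r, rfl⟩ : ∃ r, t = v * a + r := ⟨t - v * a, by omega⟩
  calc a ^ (v * a + r) * 2 ^ v = (2 * a ^ a) ^ v * a ^ r := by
        rw [pow_add, mul_comm v a, pow_mul, mul_pow]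
        ring
    _ ≤ ((a + 1) ^ a) ^ v * (a + 1) ^ r := by
        gcongr
        · exact two_mul_pow_le ha
        · omega
    _ = (a + 1) ^ (v * a + r) := by
        rw [← pow_mul, pow_add, mul_comm v a]
    _ ≤ b ^ (v * a + r) := Nat.pow_le_pow_left hab _

/-- The event that the count number `t` in coordinate `l` is corrected. -/
def Bad (n : Fin d → ℕ) (g : A → Fin d → ℕ) (l : Fin d) (t : ℕ) : Set (ℕ → A) :=
  {ω | cntT n g l t ω ≠ cnt g l (ω t)}

variable [MeasurableSpace A] [DiscreteMeasurableSpace A] [Nonempty A]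

lemma nu_bad_le (h : Data n g) {x : ℕ} (hx : 1 ≤ x) (ω : ℕ → A) (l : Fin d) (u : ℕ) :
    nu h (cyl n g x ω ∩ Bad n g l (Nat.log (n l) x + u))
      ≤ (2 * d * d : ℕ) * (2⁻¹ ^ (u / (d * bd n * bd n)) * nu h (cyl n g x ω)) := by
  classical
  set B := bd n with hB
  set T := Nat.log (n l) x with hT
  set t := T + u with ht
  have hd : 0 < d := Nat.pos_of_ne_zero (by rintro rfl; exact l.elim0)
  have hB1 : 1 < B := (h.one_lt l).trans_le (n_le_bd l)
  set γ := u / (d * B) with hγ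
  set q := 2 ^ γ with hq
  have hγu : γ * d * B ≤ u := by
    rw [mul_assoc]
    exact Nat.div_mul_le_self _ _
  have hqd : q ^ d = 2 ^ (γ * d) := by rw [hq, ← pow_mul]
  have hqpos : 0 < q := by positivity
  have hγdu : γ * d ≤ u := by
    calc γ * d ≤ γ * d * B := Nat.le_mul_of_pos_right _ (by omega)
      _ ≤ u := hγu
  have hbase1 : x * q ^ d ≤ n l ^ (t + 1) := by
    have h1 : x < n l ^ (T + 1) := Nat.lt_pow_succ_log_self (h.one_lt l) x
    calc x * q ^ d ≤ n l ^ (T + 1) * n l ^ u := by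
          refine Nat.mul_le_mul h1.le ?_
          rw [hqd]
          calc 2 ^ (γ * d) ≤ 2 ^ u := Nat.pow_le_pow_right (by norm_num) hγdu
            _ ≤ n l ^ u := Nat.pow_le_pow_left (h.one_lt l) _
      _ = n l ^ (t + 1) := by
          rw [← pow_add]
          congr 1
          omega
  have hbase2 : ∀ j < l, n j ^ (t + 1) * q ^ d ≤ n l ^ (t + 1) := by
    intro j hj
    rw [hqd]
    apply pow_mul_two_pow_le (by have := h.one_lt j; omega) (h.mono hj)
    calc γ * d * n j ≤ γ * d * B := Nat.mul_le_mul_left _ (n_le_bd j)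
      _ ≤ t + 1 := by omega
  set m₀ := n l ^ (t + 1) / q ^ d with hm₀
  have hqd0 : 0 < q ^ d := by positivity
  have hxm : x ≤ m₀ := (Nat.le_div_iff_mul_le hqd0).mpr hbase1
  have hm₀' : ∀ j < l, n j ^ (t + 1) ≤ m₀ := fun j hj =>
    (Nat.le_div_iff_mul_le hqd0).mpr (hbase2 j hj)
  set m : ℕ → ℕ := fun i => m₀ * q ^ i with hm
  have hmono : Monotone m := by
    intro i i' hi
    exact Nat.mul_le_mul_left _ (Nat.pow_le_pow_right hqpos hi)
  have hmd : m d ≤ n l ^ (t + 1) := Nat.div_mul_le_self _ _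
  have hmx : ∀ k, x ≤ m k := fun k => hxm.trans (Nat.le_mul_of_pos_right _ (by positivity))
  -- the windows
  set W : ℕ × Fin d × Bool → Set (ℕ → A) := fun p =>
    cyl n g x ω ∩ {ω' | ∀ s, Nat.log (n p.2.1) (m p.1) ≤ s → s < Nat.log (n p.2.1) (m (p.1 + 1)) →
      g (ω' s) p.2.1 = (if p.2.2 then 0 else n p.2.1 - 1) ∧ 2 ≤ cnt g p.2.1 (ω' s)} with hW
  have hsub : cyl n g x ω ∩ Bad n g l t
      ⊆ ⋃ p ∈ (range d ×ˢ ((univ : Finset (Fin d)) ×ˢ (univ : Finset Bool))), W p := by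
    rintro ω' ⟨h1, h2⟩
    obtain ⟨ω'', h3, j, hj, hne⟩ := exists_of_cntT_ne h h2
    obtain ⟨k, _, hk, j', e, he, hrun⟩ := exists_window h m hmono h3 d 0
      (by simpa using hmd) ⟨j, hj, j.2, by
        intro heq
        apply hne
        refine digits_eq_of_num_eq (dig_lt h j ω') (dig_lt h j ω'') heq t ?_
        have : t + 1 ≤ Nat.log (n j) (m 0) := by
          apply Nat.le_log_of_pow_le (h.one_lt j)
          simp only [hm, pow_zero, mul_one]
          exact hm₀' j hj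
        omega⟩
    simp only [Set.mem_iUnion]
    have hkd : k < d := by omega
    refine ⟨(k, j', decide (e = 0)), mem_product.mpr ⟨mem_range.mpr hkd, mem_univ _⟩, h1,
      fun s hs hs' => ?_⟩
    obtain ⟨h5, h6⟩ := hrun s hs hs'
    refine ⟨?_, h6⟩
    simp only [h5]
    rcases he with rfl | rfl
    · simp
    · by_cases h7 : n j' - 1 = 0
      · simp [h7]
      · simp [h7]
  refine (measure_mono hsub).trans ((measure_biUnion_finset_le _ _).trans ?_)
  have hWle : ∀ p ∈ (range d ×ˢ ((univ : Finset (Fin d)) ×ˢ (univ : Finset Bool))),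
      nu h (W p) ≤ 2⁻¹ ^ (u / (d * B * B)) * nu h (cyl n g x ω) := by
    rintro ⟨k, j', bb⟩ _
    have h1 := nu_cyl_window h x ω j' (if bb then 0 else n j' - 1) (Nat.log (n j') (m k))
      (Nat.log (n j') (m (k + 1))) (Nat.log_mono_right (hmx k))
    refine h1.trans ?_
    refine mul_le_mul' ?_ le_rfl
    have h2 : Nat.log (n j') (m k) + γ / B ≤ Nat.log (n j') (m (k + 1)) := by
      have h3 : m (k + 1) = m k * q := by
        simp only [hm]
        rw [pow_succ, mul_assoc]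
      rw [h3]
      apply log_mul_ge (h.one_lt j') (by have := hmx k; omega)
      calc n j' ^ (γ / B) ≤ B ^ (γ / B) := Nat.pow_le_pow_left (n_le_bd j') _
        _ ≤ (2 ^ B) ^ (γ / B) := Nat.pow_le_pow_left Nat.lt_two_pow_self.le _
        _ = 2 ^ (B * (γ / B)) := by rw [← pow_mul]
        _ ≤ 2 ^ γ := Nat.pow_le_pow_right (by norm_num) (Nat.mul_div_le _ _)
    have h3 : u / (d * B * B) = γ / B := by
      rw [hγ, Nat.div_div_eq_div_mul]
    rw [h3]
    exact pow_le_pow_right_of_le_one' (ENNReal.inv_le_one.mpr one_le_two) (by omega)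
  refine (sum_le_sum hWle).trans ?_
  rw [sum_const, nsmul_eq_mul]
  gcongr
  simp only [card_product, card_range, card_univ, Fintype.card_fin, Fintype.card_bool]
  exact_mod_cast (by nlinarith : d * (d * 2) ≤ 2 * d * d)

omit [Fintype A] [MeasurableSpace A] [DiscreteMeasurableSpace A] [Nonempty A] in
lemma tsum_half_div (c : ℕ) (hc : 0 < c) : ∑' v : ℕ, (2⁻¹ : ℝ≥0∞) ^ (v / c) = c * 2 := by
  have : NeZero c := ⟨hc.ne'⟩
  have h1 : ∑' v : ℕ, (2⁻¹ : ℝ≥0∞) ^ (v / c)
      = ∑' p : ℕ × Fin c, (2⁻¹ : ℝ≥0∞) ^ p.1 := by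
    rw [← (Nat.divModEquiv c).symm.tsum_eq]
    refine tsum_congr fun p => ?_
    congr 1
    simp only [Nat.divModEquiv_symm_apply]
    rw [Nat.add_comm, Nat.add_mul_div_right _ _ hc, Nat.div_eq_of_lt p.2.2, zero_add]
  rw [h1, ENNReal.tsum_prod (f := fun (a : ℕ) (_ : Fin c) => (2⁻¹ : ℝ≥0∞) ^ a)]
  simp only [tsum_fintype, sum_const, card_univ, Fintype.card_fin, nsmul_eq_mul]
  rw [ENNReal.tsum_mul_left, ENNReal.tsum_geometric]
  congr 1
  rw [ENNReal.one_sub_inv_two, inv_inv]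

/-- A uniform delay after which corrections are rare. -/
lemma exists_delay {d B : ℕ} (hd : 0 < d) (hB : 0 < B) : ∃ u₀ : ℕ, (d : ℝ≥0∞) *
    ((2 * d * d : ℕ) * ∑' v : ℕ, (2⁻¹ : ℝ≥0∞) ^ ((v + u₀) / (d * B * B))) ≤ 2⁻¹ := by
  have hc : 0 < d * B * B := by positivity
  have h1 := ENNReal.tendsto_sum_nat_add (fun v : ℕ => (2⁻¹ : ℝ≥0∞) ^ (v / (d * B * B))) (by
    rw [tsum_half_div _ hc]
    exact ENNReal.mul_ne_top (ENNReal.natCast_ne_top _) (by norm_num))
  have h2 := ENNReal.Tendsto.const_mul (a := (d : ℝ≥0∞) * (2 * d * d : ℕ)) h1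
    (Or.inr (ENNReal.mul_ne_top (ENNReal.natCast_ne_top _) (ENNReal.natCast_ne_top _)))
  rw [mul_zero] at h2
  have h3 := (h2.eventually_le_const (show (0 : ℝ≥0∞) < 2⁻¹ by simp)).exists
  obtain ⟨u₀, hu₀⟩ := h3
  exact ⟨u₀, by rwa [mul_assoc] at hu₀⟩

end Pool.Agent.Lib_MP_8460ec_an
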