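import Pool.Agent.Lib_MP_8460ec_an.Special

/-!
# Every sponge carries a sharp measure
-/

set_option linter.unusedSectionVars false
set_option linter.unusedVariables false

open Finset MeasureTheory
open scoped ENNReal

namespace Pool.Agent.Lib_MP_8460ec_an

variable {d : ℕ} {n : Fin d → ℕ} {A : Type} [Fintype A] {g : A → Fin d → ℕ}

lemma tendsto_const_mul_inv_pow (h : Data n g) (C : Fin d → ℝ) :
    Filter.Tendsto (fun m : ℕ => ∑ l, C l * ((n l : ℝ)⁻¹) ^ m) Filter.atTop (nhds 0) := by
  have h1 : ∀ l ∈ (univ : Finset (Fin d)), Filter.Tendsto (fun m : ℕ => C l * ((n l : ℝ)⁻¹) ^ m)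
      Filter.atTop (nhds 0) := by
    intro l _
    have h1 : (1 : ℝ) < n l := by exact_mod_cast h.one_lt l
    have := (tendsto_pow_atTop_nhds_zero_of_lt_one (r := (n l : ℝ)⁻¹) (by positivity)
      (inv_lt_one_of_one_lt₀ h1)).const_mul (C l)
    simpa using this
  simpa using tendsto_finsetSum _ h1

lemma dist_tau_le (h : Data n g) (m : ℕ) (ω : ℕ → A) (z y : EuclideanSpace ℝ (Fin d))
    (hz : ∀ l, z l = (U n g l m ω + y l) / (n l : ℝ) ^ m) :
    dist z (tau n g ω) ≤ ∑ l, (|y l| + 1) * ((n l : ℝ)⁻¹) ^ m := by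
  refine (dist_le_sum _ _).trans (sum_le_sum fun l _ => ?_)
  have h1 : (1 : ℝ) < n l := by exact_mod_cast h.one_lt l
  rw [tau_apply, hz l, coord_eq h l m ω, ← sub_div, abs_div,
    abs_of_pos (show (0 : ℝ) < (n l : ℝ) ^ m by positivity), inv_pow, ← div_eq_mul_inv]
  refine div_le_div_of_nonneg_right ?_ (by positivity)
  have h3 := coord_nonneg h l fun s => ω (s + m)
  have h4 := coord_le_one h l fun s => ω (s + m)
  have h5 := abs_le.mp (le_refl |y l|)
  rw [abs_le]
  constructor <;> linarith

/-- The sponge is the range of the coding map. -/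
lemma range_tau (h : Data n g) {K : Set (EuclideanSpace ℝ (Fin d))} (hc : IsCompact K)
    (hne : K.Nonempty) (hK : K = ⋃ a : A, smap n (g a) '' K) : Set.range (tau n g) = K := by
  have hmem : ∀ a : A, ∀ y ∈ K, smap n (g a) y ∈ K := by
    intro a y hy
    rw [hK]
    exact Set.mem_iUnion.mpr ⟨a, y, hy, rfl⟩
  apply Set.eq_of_subset_of_subset
  · rintro _ ⟨ω, rfl⟩
    have key : ∀ m, ∀ y ∈ K, ∃ z ∈ K, ∀ l, z l = (U n g l m ω + y l) / (n l : ℝ) ^ m := by
      intro m
      induction m with
      | zero =>
        intro y hy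
        exact ⟨y, hy, fun l => by simp [U, num]⟩
      | succ m ih =>
        intro y hy
        obtain ⟨z, hz, hzl⟩ := ih _ (hmem (ω m) y hy)
        refine ⟨z, hz, fun l => ?_⟩
        have h1 : (1 : ℝ) < n l := by exact_mod_cast h.one_lt l
        rw [hzl l]
        simp only [U, num_succ, smap]
        push_cast
        rw [pow_succ]
        field_simp
        ring
    obtain ⟨y, hy⟩ := hne
    choose z hz hzl using fun m => key m y hy
    refine hc.isClosed.mem_of_tendsto (f := z) (b := Filter.atTop) ?_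
      (Filter.Eventually.of_forall hz)
    rw [tendsto_iff_dist_tendsto_zero]
    exact squeeze_zero (fun _ => dist_nonneg) (fun m => dist_tau_le h m ω (z m) y (hzl m))
      (tendsto_const_mul_inv_pow h fun l => |y l| + 1)
  · intro x hx
    have hex : ∀ x : K, ∃ a : A, ∃ y : K, smap n (g a) y.1 = x.1 := by
      rintro ⟨x, hx⟩
      have hx' := hx
      rw [hK] at hx'
      obtain ⟨a, y, hy, hyx⟩ := Set.mem_iUnion.mp hx'
      exact ⟨a, ⟨y, hy⟩, hyx⟩
    choose a y hay using hex
    set z : ℕ → K := fun m => y^[m] ⟨x, hx⟩ with hz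
    set ω : ℕ → A := fun m => a (z m) with hω
    have key : ∀ m, ∀ l, x l = (U n g l m ω + (z m).1 l) / (n l : ℝ) ^ m := by
      intro m
      induction m with
      | zero =>
        intro l
        simp [U, num, hz]
      | succ m ih =>
        intro l
        have h1 : (1 : ℝ) < n l := by exact_mod_cast h.one_lt l
        have h2 : (z m).1 l = ((z (m + 1)).1 l + g (ω m) l) / n l := by
          have h3 : z (m + 1) = y (z m) := by
            simp only [hz]
            rw [Function.iterate_succ_apply']
          rw [h3, hω]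
          have := congrArg (fun w : EuclideanSpace ℝ (Fin d) => w l) (hay (z m))
          exact this.symm
        rw [ih l, h2]
        simp only [U, num_succ]
        push_cast
        rw [pow_succ]
        field_simp
        ring
    refine ⟨ω, ?_⟩
    -- boundedness of `K`
    obtain ⟨M, hM⟩ := hc.isBounded.exists_norm_le
    have hM' : ∀ m l, |(z m).1 l| ≤ M := fun m l =>
      (PiLp.norm_apply_le (z m).1 l).trans (hM _ (z m).2)
    have h1 : ∀ m : ℕ, dist x (tau n g ω) ≤ ∑ l, (M + 1) * ((n l : ℝ)⁻¹) ^ m := by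
      intro m
      refine (dist_tau_le h m ω x (z m).1 (key m)).trans (sum_le_sum fun l _ => ?_)
      have := hM' m l
      gcongr
    have h2 := ge_of_tendsto' (tendsto_const_mul_inv_pow h fun _ => M + 1) h1
    exact (dist_le_zero.mp h2).symm

variable [MeasurableSpace A] [DiscreteMeasurableSpace A] [Nonempty A]

lemma prodT_le (h : Data n g) (hd : 0 < d) (x : ℕ) (ω : ℕ → A) :
    prodT n g x ω ≤ bd n ^ (x * d) := by
  have hB := one_le_bd h hd
  calc prodT n g x ω ≤ ∏ l : Fin d, bd n ^ x := by
        rw [prodT]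
        refine prod_le_prod' fun l _ => ?_
        calc ∏ t ∈ range (Nat.log (n l) x), cntT n g l t ω
            ≤ ∏ t ∈ range (Nat.log (n l) x), bd n := prod_le_prod' fun t _ => cntT_le h _ _ _
          _ = bd n ^ Nat.log (n l) x := by rw [prod_const, card_range]
          _ ≤ bd n ^ x := Nat.pow_le_pow_right hB (Nat.log_le_self _ _)
    _ = bd n ^ (x * d) := by rw [prod_const, card_univ, Fintype.card_fin, ← pow_mul]

/-- The normalised corrected measure on the sponge. -/
noncomputable def muK (h : Data n g) : Measure (EuclideanSpace ℝ (Fin d)) :=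
  (mu h Set.univ)⁻¹ • (mu h).map (tau n g)

lemma mu_univ_pos (h : Data n g) (hd : 0 < d) : 0 < (mu h Set.univ).toReal := by
  obtain ⟨a⟩ := ‹Nonempty A›
  refine (bm_pos h hd one_pos (fun _ => a)).trans_le ?_
  exact ENNReal.toReal_mono (measure_ne_top _ _) (measure_mono (Set.subset_univ _))

lemma mu_univ_ne_zero (h : Data n g) (hd : 0 < d) : mu h Set.univ ≠ 0 := by
  intro h0
  have := mu_univ_pos h hd
  rw [h0] at this
  simp at this

lemma isProb_muK (h : Data n g) (hd : 0 < d) : IsProbabilityMeasure (muK h) := by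
  constructor
  rw [muK, Measure.smul_apply, Measure.map_apply (measurable_tau h) MeasurableSet.univ,
    Set.preimage_univ, smul_eq_mul]
  exact ENNReal.inv_mul_cancel (mu_univ_ne_zero h hd) (measure_ne_top _ _)

lemma muK_real_ball (h : Data n g) (R : ℝ) (ω : ℕ → A) :
    (muK h).real (Metric.ball (tau n g ω) R) = (mu h Set.univ).toReal⁻¹ * bm h R ω := by
  rw [measureReal_def, muK, Measure.smul_apply, Measure.map_apply (measurable_tau h)
    Metric.isOpen_ball.measurableSet, smul_eq_mul, ENNReal.toReal_mul, ENNReal.toReal_inv]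
  rfl

lemma support_muK (h : Data n g) (hd : 0 < d) (hcl : IsClosed (Set.range (tau n g))) :
    (muK h).support = Set.range (tau n g) := by
  have hprob := isProb_muK h hd
  ext x
  rw [Filter.HasBasis.mem_measureSupport Metric.nhds_basis_ball]
  constructor
  · intro hx
    by_contra hc
    obtain ⟨ε, hε, hball⟩ := Metric.isOpen_iff.mp hcl.isOpen_compl x hc
    have h1 := hx ε hε
    have h2 : muK h (Metric.ball x ε) = 0 := by
      rw [muK, Measure.smul_apply, Measure.map_apply (measurable_tau h)
        Metric.isOpen_ball.measurableSet]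
      have : tau n g ⁻¹' Metric.ball x ε = ∅ := by
        ext ω
        simp only [Set.mem_preimage, Set.mem_empty_iff_false, iff_false]
        intro hω
        exact hball hω ⟨ω, rfl⟩
      rw [this, measure_empty, smul_zero]
    rw [h2] at h1
    exact lt_irrefl _ h1
  · rintro ⟨ω, rfl⟩ r hr
    have h1 : 0 < (muK h).real (Metric.ball (tau n g ω) r) := by
      rw [muK_real_ball]
      have := mu_univ_pos h hd
      have := bm_pos h hd hr ω
      positivity
    rw [measureReal_def] at h1
    exact (ENNReal.toReal_pos_iff.mp h1).1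

theorem sharp_muK (h : Data n g) (hd : 0 < d) :
    SharpAssouad (Set.range (tau n g)) (muK h) ∧ SharpLower (Set.range (tau n g)) (muK h) := by
  have hex : ∀ l, ∃ a : A, ∀ b, cnt g l b ≤ cnt g l a := fun l => Finite.exists_max _
  have hex' : ∀ l, ∃ a : A, ∀ b, cnt g l a ≤ cnt g l b := fun l => Finite.exists_min _
  choose fM hfM using hex
  choose fm hfm using hex'
  obtain ⟨C₁, hC₁, hup⟩ := exists_upper h hd (F := fun l => cnt g l (fM l)) (by
    intro l t ω
    obtain ⟨ω', _, h2⟩ := exists_cntT (n := n) (g := g) l t ω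
    rw [h2]
    exact hfM l _)
  obtain ⟨C₂, hC₂, hlow⟩ := exists_lower h hd (F := fun l => cnt g l (fm l))
    (fun l => one_le_cnt _ _) (by
    intro l t ω
    obtain ⟨ω', _, h2⟩ := exists_cntT (n := n) (g := g) l t ω
    rw [h2]
    exact hfm l _)
  have hA := expo_le_dimA h hd fM hfM
  have hL := dimL_le_expo h hd fm
  have hT := mu_univ_pos h hd
  have heA := expo_nonneg (n := n) (fun l => cnt g l (fM l))
  refine ⟨⟨C₁, hC₁, 1, one_pos, ?_⟩, ⟨?_, C₂, hC₂, 1, one_pos, ?_⟩⟩
  · rintro _ ⟨ω, rfl⟩ r R hr hrR hR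
    rw [muK_real_ball, muK_real_ball]
    have h1 : 1 ≤ R / r := (one_le_div hr).mpr hrR.le
    have h2 := hup ω r R hr hrR hR
    have h3 := Real.rpow_le_rpow_of_exponent_le h1 hA
    have h4 := bm_nonneg h r ω
    calc (mu h Set.univ).toReal⁻¹ * bm h R ω
        ≤ (mu h Set.univ).toReal⁻¹ * (C₁ * (R / r) ^ dimA (Set.range (tau n g)) * bm h r ω) := by
          refine mul_le_mul_of_nonneg_left (h2.trans ?_) (by positivity)
          gcongr
      _ = _ := by ring
  · -- doubling
    obtain ⟨c, K, hc, hK, _, hlo⟩ := exists_bm_bounds h hd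
    have hB := one_le_bd h hd
    have hB' : (0 : ℝ) < bd n := by exact_mod_cast hB
    set P : ℝ := (bd n : ℝ) ^ (2 * bd n * d) with hP
    have hPpos : 0 < P := by positivity
    have hhalf : ∀ ω : ℕ → A, c / P ≤ bm h (1 / 2) ω := by
      intro ω
      have h1 := hlo ω (2 * bd n) (1 / 2) (by omega) (by push_cast; linarith)
      have h2 : (prodT n g (2 * bd n) ω : ℝ) ≤ P := by
        rw [hP]
        exact_mod_cast prodT_le h hd _ ω
      rw [div_le_iff₀ hPpos]
      refine h1.trans ?_
      have := bm_nonneg h (1 / 2) ω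
      gcongr
    refine ⟨C₁ * (2 : ℝ) ^ expo n (fun l => cnt g l (fM l)) + P / c, by positivity, ?_⟩
    rintro _ ⟨ω, rfl⟩ r hr
    rw [muK_real_ball, muK_real_ball]
    have hb := bm_nonneg h r ω
    have h5 : bm h (2 * r) ω ≤
        (C₁ * (2 : ℝ) ^ expo n (fun l => cnt g l (fM l)) + P / c) * bm h r ω := by
      rcases le_or_gt (2 * r) 1 with h1 | h1
      · have h2 := hup ω r (2 * r) hr (by linarith) h1
        rw [show 2 * r / r = 2 by field_simp] at h2
        refine h2.trans ?_
        gcongr
        have : 0 < P / c := by positivity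
        linarith
      · have h2 : bm h (2 * r) ω ≤ 1 := by
          have h3 : bm h (2 * r) ω ≤ (1 : ℝ≥0∞).toReal :=
            ENNReal.toReal_mono (by simp)
              ((measure_mono (Set.subset_univ _)).trans (mu_univ_le h))
          simpa using h3
        have h3 : c / P ≤ bm h r ω := (hhalf ω).trans (bm_mono h (by linarith) ω)
        have h4 : 1 ≤ P / c * bm h r ω := by
          calc (1 : ℝ) = P / c * (c / P) := by field_simp
            _ ≤ _ := by gcongr
        have h6 : 0 ≤ C₁ * (2 : ℝ) ^ expo n (fun l => cnt g l (fM l)) * bm h r ω := by positivity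
        rw [add_mul]
        linarith
    calc (mu h Set.univ).toReal⁻¹ * bm h (2 * r) ω
        ≤ (mu h Set.univ).toReal⁻¹ *
          ((C₁ * (2 : ℝ) ^ expo n (fun l => cnt g l (fM l)) + P / c) * bm h r ω) :=
          mul_le_mul_of_nonneg_left h5 (by positivity)
      _ = _ := by ring
  · rintro _ ⟨ω, rfl⟩ r R hr hrR hR
    rw [muK_real_ball, muK_real_ball]
    have h1 : 1 ≤ R / r := (one_le_div hr).mpr hrR.le
    have h2 := hlow ω r R hr hrR hR
    have h3 := Real.rpow_le_rpow_of_exponent_le h1 hL
    have h4 := bm_nonneg h r ω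
    calc C₂ * (R / r) ^ dimL (Set.range (tau n g)) * ((mu h Set.univ).toReal⁻¹ * bm h r ω)
        = (mu h Set.univ).toReal⁻¹ *
          (C₂ * (R / r) ^ dimL (Set.range (tau n g)) * bm h r ω) := by ring
      _ ≤ (mu h Set.univ).toReal⁻¹ * bm h R ω := by
          refine mul_le_mul_of_nonneg_left (le_trans ?_ h2) (by positivity)
          gcongr

/-- The main theorem. -/
theorem main {d : ℕ} (n : Fin d → ℕ) (D : Finset (Fin d → ℕ))
    (K : Set (EuclideanSpace ℝ (Fin d))) (hK : IsSponge n D K) :
    ∃ μ : Measure (EuclideanSpace ℝ (Fin d)), IsProbabilityMeasure μ ∧ μ.support = K ∧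
      SharpAssouad K μ ∧ SharpLower K μ := by
  have hd : 0 < d := by
    rcases Nat.eq_zero_or_pos d with rfl | hd
    · have h1 := hK.two_le_card
      have : D.card ≤ 1 := Finset.card_le_one.mpr fun a _ b _ => Subsingleton.elim _ _
      omega
    · exact hd
  have hne : Nonempty {i // i ∈ D} := by
    have h1 := hK.two_le_card
    obtain ⟨i, hi⟩ := Finset.card_pos.mp (show 0 < D.card by omega)
    exact ⟨⟨i, hi⟩⟩
  have h : Data n (fun a : {i // i ∈ D} => a.1) :=
    { one_lt := hK.one_lt
      mono := hK.strictMono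
      lt := fun a l => hK.digit_lt a.1 a.2 l
      inj := Subtype.val_injective }
  have hrange : Set.range (tau n (fun a : {i // i ∈ D} => a.1)) = K := by
    apply range_tau h hK.isCompact hK.nonempty
    conv_lhs => rw [hK.eq_iUnion]
    ext x
    simp
  have hsharp := sharp_muK h hd
  have hsupp := support_muK h hd (by rw [hrange]; exact hK.isCompact.isClosed)
  rw [hrange] at hsharp hsupp
  exact ⟨muK h, isProb_muK h hd, hsupp, hsharp.1, hsharp.2⟩

end Pool.Agent.Lib_MP_8460ec_an
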