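import Pool.Agent.Lib_MP_8460ec_an.Loss

/-!
# The corrected measure on the symbolic space
-/

set_option linter.unusedSectionVars false
set_option linter.unusedVariables false

open Finset MeasureTheory
open scoped ENNReal

namespace Pool.Agent.Lib_MP_8460ec_an

variable {d : ℕ} {A : Type} [Fintype A] {n : Fin d → ℕ} {g : A → Fin d → ℕ}

/-- The correction factor. -/
noncomputable def fac (n : Fin d → ℕ) (g : A → Fin d → ℕ) (l : Fin d) (t : ℕ) (ω : ℕ → A) :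
    ℝ≥0∞ := (cnt g l (ω t) : ℝ≥0∞) * (cntT n g l t ω : ℝ≥0∞)⁻¹

lemma cntT_ne_zero (l : Fin d) (t : ℕ) (ω : ℕ → A) : ((cntT n g l t ω : ℕ) : ℝ≥0∞) ≠ 0 := by
  have := one_le_cntT (n := n) (g := g) l t ω
  simp only [ne_eq, Nat.cast_eq_zero]
  omega

lemma fac_le_one (l : Fin d) (t : ℕ) (ω : ℕ → A) : fac n g l t ω ≤ 1 := by
  rw [fac, ← ENNReal.mul_inv_cancel (cntT_ne_zero (n := n) l t ω) (ENNReal.natCast_ne_top _)]
  gcongr
  exact cnt_le_cntT l t ω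

lemma inv_le_fac (h : Data n g) (l : Fin d) (t : ℕ) (ω : ℕ → A) :
    ((bd n : ℕ) : ℝ≥0∞)⁻¹ ≤ fac n g l t ω := by
  rw [fac, ← one_mul ((bd n : ℕ) : ℝ≥0∞)⁻¹]
  gcongr
  · exact_mod_cast one_le_cnt l (ω t)
  · exact cntT_le h l t ω

lemma fac_eq_one {l : Fin d} {t : ℕ} {ω : ℕ → A} (hω : ω ∉ Bad n g l t) :
    fac n g l t ω = 1 := by
  simp only [Bad, ne_eq, Set.mem_ofPred_eq, not_not] at hω
  rw [fac, ← hω]
  exact ENNReal.mul_inv_cancel (cntT_ne_zero l t ω) (ENNReal.natCast_ne_top _)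

/-- The density of the corrected measure. -/
noncomputable def rho (n : Fin d → ℕ) (g : A → Fin d → ℕ) (ω : ℕ → A) : ℝ≥0∞ :=
  ⨅ m : ℕ, ∏ l, ∏ t ∈ range m, fac n g l t ω

lemma prod_fac (x : ℕ) (ω : ℕ → A) :
    ∏ l, ∏ t ∈ range (Nat.log (n l) x), fac n g l t ω
      = (prodN n g x ω : ℝ≥0∞) * (prodT n g x ω : ℝ≥0∞)⁻¹ := by
  simp only [fac, prod_mul_distrib]
  rw [prodN, prodT]
  push_cast
  congr 1
  rw [ENNReal.prod_inv_distrib (fun _ _ _ _ _ => Or.inl (by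
    rw [prod_ne_zero_iff]
    exact fun s _ => cntT_ne_zero _ _ _))]
  refine prod_congr rfl fun l _ => ?_
  rw [ENNReal.prod_inv_distrib (fun _ _ _ _ _ => Or.inl (cntT_ne_zero _ _ _))]

lemma prodN_ne_zero (x : ℕ) (ω : ℕ → A) : (prodN n g x ω : ℝ≥0∞) ≠ 0 := by
  rw [prodN]
  push_cast
  rw [prod_ne_zero_iff]
  intro l _
  rw [prod_ne_zero_iff]
  exact fun s _ => cnt_ne_zero _ _

lemma one_le_prodT (x : ℕ) (ω : ℕ → A) : 1 ≤ prodT n g x ω := by
  rw [prodT]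
  apply Nat.one_le_iff_ne_zero.mpr
  rw [prod_ne_zero_iff]
  intro l _
  rw [prod_ne_zero_iff]
  intro s _
  have := one_le_cntT (n := n) (g := g) l s ω
  omega

lemma prodN_congr (h : Data n g) {x : ℕ} {ω ω' : ℕ → A} (hω : ω' ∈ cyl n g x ω) :
    prodN n g x ω' = prodN n g x ω := by
  rw [prodN, prodN]
  refine prod_congr rfl fun l _ => prod_congr rfl fun s hs => ?_
  rw [mem_range] at hs
  exact cnt_congr fun j hj => hω j s (lt_of_lt_of_le hs (log_anti h x hj.le))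

lemma prodT_congr (h : Data n g) {x : ℕ} {ω ω' : ℕ → A} (hω : ω' ∈ cyl n g x ω) :
    prodT n g x ω' = prodT n g x ω := by
  rw [prodT, prodT]
  refine prod_congr rfl fun l _ => prod_congr rfl fun s hs => ?_
  rw [mem_range] at hs
  exact cntT_congr_cyl h hs hω

variable [MeasurableSpace A] [DiscreteMeasurableSpace A] [Nonempty A]

omit [Fintype A] in
lemma measurable_of_dep [Finite A] {β : Type*} [MeasurableSpace β] (f : (ℕ → A) → β) (M : ℕ)
    (hf : ∀ ω ω', (∀ s < M, ω s = ω' s) → f ω = f ω') : Measurable f := by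
  obtain ⟨a₀⟩ := ‹Nonempty A›
  set F : (Fin M → A) → β := fun v => f fun s => if hs : s < M then v ⟨s, hs⟩ else a₀ with hF
  have h1 : f = F ∘ fun ω (s : Fin M) => ω s := by
    funext ω
    apply hf
    intro s hs
    simp [hs]
  rw [h1]
  exact (measurable_of_countable F).comp (measurable_pi_lambda _ fun s => measurable_pi_apply _)

lemma measurable_fac (h : Data n g) (l : Fin d) (t : ℕ) :
    Measurable (fac n g l t : (ℕ → A) → ℝ≥0∞) := by
  apply measurable_of_dep _ (n l ^ (t + 1) + t + 1)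
  intro ω ω' hω
  rw [fac, fac, hω t (by omega)]
  congr 3
  apply cntT_congr h
  intro j hj
  left
  apply num_congr
  intro s hs
  have := Nat.log_le_self (n j) (n l ^ (t + 1))
  rw [hω s (by omega)]

lemma measurable_rho (h : Data n g) : Measurable (rho n g : (ℕ → A) → ℝ≥0∞) := by
  unfold rho
  apply Measurable.iInf
  intro m
  apply Finset.measurable_prod
  intro l _
  apply Finset.measurable_prod
  intro t _
  exact measurable_fac h l t

/-- The corrected measure. -/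
noncomputable def mu (h : Data n g) : Measure (ℕ → A) := (nu h).withDensity (rho n g)

lemma mu_cyl_le (h : Data n g) (x : ℕ) (ω : ℕ → A) :
    mu h (cyl n g x ω) ≤ (prodT n g x ω : ℝ≥0∞)⁻¹ := by
  rw [mu, withDensity_apply _ (measurableSet_cyl h x ω)]
  calc ∫⁻ ω' in cyl n g x ω, rho n g ω' ∂(nu h)
      ≤ ∫⁻ _ in cyl n g x ω, (prodN n g x ω : ℝ≥0∞) * (prodT n g x ω : ℝ≥0∞)⁻¹ ∂(nu h) := by
        refine setLIntegral_mono measurable_const fun ω' hω' => ?_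
        refine (iInf_le _ x).trans ?_
        rw [← prodN_congr h hω', ← prodT_congr h hω', ← prod_fac]
        refine prod_le_prod' fun l _ => ?_
        exact prod_le_prod_of_subset_of_le_one'
          (range_subset_range.mpr (Nat.log_le_self _ _)) fun t _ _ => fac_le_one _ _ _
    _ = (prodT n g x ω : ℝ≥0∞)⁻¹ := by
        rw [setLIntegral_const, nu_cyl h, mul_right_comm,
          ENNReal.mul_inv_cancel (prodN_ne_zero x ω) (ENNReal.natCast_ne_top _), one_mul]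

/-- The points of a cube without late corrections. -/
def Good (n : Fin d → ℕ) (g : A → Fin d → ℕ) (x u₀ : ℕ) (ω : ℕ → A) : Set (ℕ → A) :=
  cyl n g x ω \ ⋃ l : Fin d, ⋃ v : ℕ,
    (cyl n g x ω ∩ Bad n g l (Nat.log (n l) x + (v + u₀)))

lemma measurableSet_Bad (h : Data n g) (l : Fin d) (t : ℕ) :
    MeasurableSet (Bad n g l t : Set (ℕ → A)) := by
  have h1 : Measurable fun ω : ℕ → A => (cntT n g l t ω, cnt g l (ω t)) := by
    apply measurable_of_dep _ (n l ^ (t + 1) + t + 1)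
    intro ω ω' hω
    rw [hω t (by omega)]
    congr 1
    apply cntT_congr h
    intro j hj
    left
    apply num_congr
    intro s hs
    have := Nat.log_le_self (n j) (n l ^ (t + 1))
    rw [hω s (by omega)]
  exact h1 (MeasurableSet.of_discrete (s := {p : ℕ × ℕ | p.1 ≠ p.2}))

lemma measurableSet_Good (h : Data n g) (x u₀ : ℕ) (ω : ℕ → A) :
    MeasurableSet (Good n g x u₀ ω) := by
  refine (measurableSet_cyl h x ω).diff ?_
  refine MeasurableSet.iUnion fun l => MeasurableSet.iUnion fun v => ?_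
  exact (measurableSet_cyl h x ω).inter (measurableSet_Bad h _ _)

lemma nu_good_ge (h : Data n g) {u₀ : ℕ} (hu : (d : ℝ≥0∞) *
    ((2 * d * d : ℕ) * ∑' v : ℕ, (2⁻¹ : ℝ≥0∞) ^ ((v + u₀) / (d * bd n * bd n))) ≤ 2⁻¹)
    {x : ℕ} (hx : 1 ≤ x) (ω : ℕ → A) :
    2⁻¹ * nu h (cyl n g x ω) ≤ nu h (Good n g x u₀ ω) := by
  have h1 : nu h (⋃ l : Fin d, ⋃ v : ℕ,
      (cyl n g x ω ∩ Bad n g l (Nat.log (n l) x + (v + u₀)))) ≤ 2⁻¹ * nu h (cyl n g x ω) := by
    calc nu h (⋃ l : Fin d, ⋃ v : ℕ, (cyl n g x ω ∩ Bad n g l (Nat.log (n l) x + (v + u₀))))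
        ≤ ∑ l : Fin d, nu h (⋃ v : ℕ, (cyl n g x ω ∩ Bad n g l (Nat.log (n l) x + (v + u₀)))) := by
          refine (measure_iUnion_le _).trans ?_
          rw [tsum_fintype]
      _ ≤ ∑ l : Fin d, ∑' v : ℕ, nu h (cyl n g x ω ∩ Bad n g l (Nat.log (n l) x + (v + u₀))) :=
          sum_le_sum fun l _ => measure_iUnion_le _
      _ ≤ ∑ l : Fin d, ∑' v : ℕ, (2 * d * d : ℕ) *
          (2⁻¹ ^ ((v + u₀) / (d * bd n * bd n)) * nu h (cyl n g x ω)) :=
          sum_le_sum fun l _ => ENNReal.tsum_le_tsum fun v => nu_bad_le h hx ω l _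
      _ = ((d : ℝ≥0∞) * ((2 * d * d : ℕ) * ∑' v : ℕ, (2⁻¹ : ℝ≥0∞) ^
          ((v + u₀) / (d * bd n * bd n)))) * nu h (cyl n g x ω) := by
          rw [sum_const, card_univ, Fintype.card_fin, nsmul_eq_mul, ENNReal.tsum_mul_left,
            ENNReal.tsum_mul_right]
          ring
      _ ≤ 2⁻¹ * nu h (cyl n g x ω) := mul_le_mul' hu le_rfl
  have h2 : nu h (cyl n g x ω) ≤ nu h (Good n g x u₀ ω) + 2⁻¹ * nu h (cyl n g x ω) := by
    refine le_trans ?_ (add_le_add le_rfl h1)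
    refine le_trans (measure_mono ?_) (measure_union_le _ _)
    intro ω' hω'
    by_cases hc : ω' ∈ ⋃ l : Fin d, ⋃ v : ℕ,
        (cyl n g x ω ∩ Bad n g l (Nat.log (n l) x + (v + u₀)))
    · exact Or.inr hc
    · exact Or.inl ⟨hω', hc⟩
  have hfin : 2⁻¹ * nu h (cyl n g x ω) ≠ ⊤ :=
    ENNReal.mul_ne_top (by simp) (measure_ne_top _ _)
  have h3 : nu h (cyl n g x ω) = 2⁻¹ * nu h (cyl n g x ω) + 2⁻¹ * nu h (cyl n g x ω) := by
    rw [← add_mul, ENNReal.inv_two_add_inv_two, one_mul]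
  rw [h3] at h2
  exact (ENNReal.add_le_add_iff_right hfin).mp (h3 ▸ h2)

lemma rho_ge_of_good (h : Data n g) {u₀ x : ℕ} {ω ω' : ℕ → A} (hω' : ω' ∈ Good n g x u₀ ω) :
    (((bd n : ℕ) : ℝ≥0∞)⁻¹) ^ (u₀ * d) * ((prodN n g x ω : ℝ≥0∞) * (prodT n g x ω : ℝ≥0∞)⁻¹)
      ≤ rho n g ω' := by
  obtain ⟨h1, h2⟩ := hω'
  have h3 : ∀ (l : Fin d) (t : ℕ), Nat.log (n l) x + u₀ ≤ t → fac n g l t ω' = 1 := by
    intro l t ht
    apply fac_eq_one
    intro hb
    apply h2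
    simp only [Set.mem_iUnion]
    refine ⟨l, t - (Nat.log (n l) x + u₀), h1, ?_⟩
    rwa [show Nat.log (n l) x + (t - (Nat.log (n l) x + u₀) + u₀) = t by omega]
  rw [← prodN_congr h h1, ← prodT_congr h h1, ← prod_fac]
  refine le_iInf fun m => ?_
  have hB : (((bd n : ℕ) : ℝ≥0∞)⁻¹) ^ (u₀ * d) = ∏ l : Fin d, (((bd n : ℕ) : ℝ≥0∞)⁻¹) ^ u₀ := by
    rw [prod_const, card_univ, Fintype.card_fin, pow_mul]
  rw [hB, ← prod_mul_distrib]
  refine prod_le_prod' fun l _ => ?_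
  set T := Nat.log (n l) x with hT
  calc (((bd n : ℕ) : ℝ≥0∞)⁻¹) ^ u₀ * ∏ t ∈ range T, fac n g l t ω'
      = (∏ t ∈ range T, fac n g l t ω') * ∏ t ∈ range u₀, ((bd n : ℕ) : ℝ≥0∞)⁻¹ := by
        rw [mul_comm, prod_const, card_range]
    _ ≤ (∏ t ∈ range T, fac n g l t ω') * ∏ t ∈ range u₀, fac n g l (T + t) ω' :=
        mul_le_mul' le_rfl (prod_le_prod' fun t _ => inv_le_fac h l _ _)
    _ = ∏ t ∈ range (T + u₀), fac n g l t ω' := by rw [prod_range_add]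
    _ = ∏ t ∈ range (T + u₀ + m), fac n g l t ω' := by
        rw [prod_range_add (fun t => fac n g l t ω') (T + u₀) m]
        rw [prod_congr rfl (fun t _ => h3 l (T + u₀ + t) (by omega)), prod_const_one, mul_one]
    _ ≤ ∏ t ∈ range m, fac n g l t ω' :=
        prod_le_prod_of_subset_of_le_one' (range_subset_range.mpr (by omega))
          fun t _ _ => fac_le_one _ _ _

lemma le_mu_cyl (h : Data n g) {u₀ : ℕ} (hu : (d : ℝ≥0∞) *
    ((2 * d * d : ℕ) * ∑' v : ℕ, (2⁻¹ : ℝ≥0∞) ^ ((v + u₀) / (d * bd n * bd n))) ≤ 2⁻¹)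
    {x : ℕ} (hx : 1 ≤ x) (ω : ℕ → A) :
    (2⁻¹ * (((bd n : ℕ) : ℝ≥0∞)⁻¹) ^ (u₀ * d)) * (prodT n g x ω : ℝ≥0∞)⁻¹
      ≤ mu h (cyl n g x ω) := by
  rw [mu, withDensity_apply _ (measurableSet_cyl h x ω)]
  calc (2⁻¹ * (((bd n : ℕ) : ℝ≥0∞)⁻¹) ^ (u₀ * d)) * (prodT n g x ω : ℝ≥0∞)⁻¹
      = ((((bd n : ℕ) : ℝ≥0∞)⁻¹) ^ (u₀ * d) *
          ((prodN n g x ω : ℝ≥0∞) * (prodT n g x ω : ℝ≥0∞)⁻¹)) *
            (2⁻¹ * nu h (cyl n g x ω)) := by
        rw [nu_cyl h]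
        have h1 := ENNReal.mul_inv_cancel (prodN_ne_zero (n := n) (g := g) x ω)
          (ENNReal.natCast_ne_top _)
        calc (2⁻¹ * (((bd n : ℕ) : ℝ≥0∞)⁻¹) ^ (u₀ * d)) * (prodT n g x ω : ℝ≥0∞)⁻¹
            = (2⁻¹ * (((bd n : ℕ) : ℝ≥0∞)⁻¹) ^ (u₀ * d)) * (prodT n g x ω : ℝ≥0∞)⁻¹ *
              ((prodN n g x ω : ℝ≥0∞) * (prodN n g x ω : ℝ≥0∞)⁻¹) := by rw [h1, mul_one]
          _ = _ := by ring
    _ ≤ ((((bd n : ℕ) : ℝ≥0∞)⁻¹) ^ (u₀ * d) *
          ((prodN n g x ω : ℝ≥0∞) * (prodT n g x ω : ℝ≥0∞)⁻¹)) * nu h (Good n g x u₀ ω) :=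
        mul_le_mul' le_rfl (nu_good_ge h hu hx ω)
    _ = ∫⁻ _ in Good n g x u₀ ω, (((bd n : ℕ) : ℝ≥0∞)⁻¹) ^ (u₀ * d) *
          ((prodN n g x ω : ℝ≥0∞) * (prodT n g x ω : ℝ≥0∞)⁻¹) ∂(nu h) := by
        rw [setLIntegral_const]
    _ ≤ ∫⁻ ω' in Good n g x u₀ ω, rho n g ω' ∂(nu h) :=
        setLIntegral_mono (measurable_rho h) fun ω' hω' => rho_ge_of_good h hω'
    _ ≤ ∫⁻ ω' in cyl n g x ω, rho n g ω' ∂(nu h) :=
        lintegral_mono_set Set.sdiff_subset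

end Pool.Agent.Lib_MP_8460ec_an
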