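import Pool.Agent.Lib_MP_8460ec_an.Setup

/-!
# The coordinate uniform measure on the symbolic space
-/

set_option linter.unusedSectionVars false
set_option linter.unusedVariables false

open Finset MeasureTheory
open scoped ENNReal

namespace Pool.Agent.Lib_MP_8460ec_an

variable {d : ℕ} {A : Type} [Fintype A] {n : Fin d → ℕ} {g : A → Fin d → ℕ}

/-- Number of coordinates whose digit number `s` is visible at level `x`. -/
def idx (n : Fin d → ℕ) (x s : ℕ) : ℕ := (univ.filter fun l : Fin d => s < Nat.log (n l) x).card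

lemma log_anti (h : Data n g) (x : ℕ) {l l' : Fin d} (hl : l ≤ l') :
    Nat.log (n l') x ≤ Nat.log (n l) x :=
  Nat.log_anti_left (h.one_lt l) (h.mono.monotone hl)

lemma idx_le (x s : ℕ) : idx n x s ≤ d := by
  calc idx n x s ≤ (univ : Finset (Fin d)).card := card_le_card (filter_subset _ _)
    _ = d := by simp

lemma lt_idx_iff (h : Data n g) (x s : ℕ) (l : Fin d) :
    l.1 < idx n x s ↔ s < Nat.log (n l) x := by
  constructor
  · intro hl
    by_contra hc
    have : (univ.filter fun l : Fin d => s < Nat.log (n l) x) ⊆ Finset.Iio l := by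
      intro k hk
      rw [mem_filter] at hk
      rw [Finset.mem_Iio]
      by_contra hkl
      have := log_anti h x (not_lt.mp hkl)
      omega
    have h2 := card_le_card this
    rw [Fin.card_Iio] at h2
    have : idx n x s ≤ l.1 := h2
    omega
  · intro hl
    have : Finset.Iic l ⊆ (univ.filter fun l : Fin d => s < Nat.log (n l) x) := by
      intro k hk
      rw [Finset.mem_Iic] at hk
      have := log_anti h x hk
      simp only [mem_filter, mem_univ, true_and]
      omega
    have h2 := card_le_card this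
    rw [Fin.card_Iic] at h2
    exact h2

/-- The approximate cube of level `x` which contains `ω`. -/
def cyl (n : Fin d → ℕ) (g : A → Fin d → ℕ) (x : ℕ) (ω : ℕ → A) : Set (ℕ → A) :=
  {ω' | ∀ l : Fin d, ∀ s < Nat.log (n l) x, g (ω' s) l = g (ω s) l}

lemma mem_cyl {x : ℕ} {ω ω' : ℕ → A} :
    ω' ∈ cyl n g x ω ↔ ∀ l : Fin d, ∀ s < Nat.log (n l) x, g (ω' s) l = g (ω s) l := Iff.rfl

lemma self_mem_cyl (x : ℕ) (ω : ℕ → A) : ω ∈ cyl n g x ω := fun _ _ _ => rfl

lemma cyl_eq (h : Data n g) (x : ℕ) (ω : ℕ → A) :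
    cyl n g x ω = {ω' | ∀ s, ω' s ∈ Pre g (idx n x s) (ω s)} := by
  ext ω'
  simp only [mem_cyl, Set.mem_ofPred_eq, mem_Pre, lt_idx_iff h]
  constructor
  · intro hh s l hs
    exact hh l s hs
  · intro hh l s hs
    exact hh s l hs

lemma cyl_congr {x : ℕ} {ω ω' : ℕ → A} (hω : ω' ∈ cyl n g x ω) :
    cyl n g x ω' = cyl n g x ω := by
  ext ω''
  constructor
  · intro h'' l s hs
    rw [h'' l s hs, hω l s hs]
  · intro h'' l s hs
    rw [h'' l s hs, hω l s hs]

lemma cyl_anti {x y : ℕ} (hxy : x ≤ y) (ω : ℕ → A) : cyl n g y ω ⊆ cyl n g x ω := by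
  intro ω' h' l s hs
  exact h' l s (lt_of_lt_of_le hs (Nat.log_mono_right hxy))

variable [MeasurableSpace A] [DiscreteMeasurableSpace A] [Nonempty A]

/-- The coordinate uniform probability on the digit set. -/
noncomputable def Pm (h : Data n g) : Measure A := (PMF.ofFintype (wt g) (sum_wt h)).toMeasure

instance (h : Data n g) : IsProbabilityMeasure (Pm h) := by
  unfold Pm
  infer_instance

lemma Pm_apply (h : Data n g) (S : Finset A) : Pm h (S : Set A) = ∑ a ∈ S, wt g a := by
  classical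
  rw [Pm, PMF.toMeasure_apply_finset]
  rfl

/-- The coordinate uniform measure on the symbolic space. -/
noncomputable def nu (h : Data n g) : Measure (ℕ → A) := Measure.infinitePi fun _ => Pm h

instance (h : Data n g) : IsProbabilityMeasure (nu h) := by
  unfold nu
  infer_instance

lemma nu_box (h : Data n g) (S : ℕ → Finset A) (N₀ : ℕ) (hS : ∀ s, N₀ ≤ s → S s = univ) :
    nu h {ω | ∀ s, ω s ∈ S s} = ∏ s ∈ range N₀, ∑ a ∈ S s, wt g a := by
  have : {ω : ℕ → A | ∀ s, ω s ∈ S s} = Set.pi (range N₀ : Finset ℕ) (fun s => (S s : Set A)) := by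
    ext ω
    simp only [Set.mem_ofPred_eq, Set.mem_pi, coe_range, Set.mem_Iio, mem_coe]
    constructor
    · intro hh s _
      exact hh s
    · intro hh s
      rcases lt_or_ge s N₀ with hs | hs
      · exact hh s hs
      · rw [hS s hs]
        exact mem_univ _
  rw [this, nu, Measure.infinitePi_pi _ (fun s _ => MeasurableSet.of_discrete)]
  exact prod_congr rfl fun s _ => Pm_apply h _

lemma measurableSet_cyl (h : Data n g) (x : ℕ) (ω : ℕ → A) :
    MeasurableSet (cyl n g x ω) := by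
  rw [cyl_eq h]
  have : {ω' : ℕ → A | ∀ s, ω' s ∈ Pre g (idx n x s) (ω s)}
      = ⋂ s, (fun ω' : ℕ → A => ω' s) ⁻¹' (Pre g (idx n x s) (ω s) : Set A) := by
    ext ω'
    simp
  rw [this]
  exact MeasurableSet.iInter fun s => (measurable_pi_apply s) MeasurableSet.of_discrete

/-- An index after which no digit is visible at level `x`. -/
lemma idx_eq_zero (h : Data n g) {x s : ℕ} (hs : x ≤ s) : idx n x s = 0 := by
  rw [idx, card_eq_zero]
  ext l
  simp only [mem_filter, mem_univ, true_and, notMem_empty, iff_false, not_lt]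
  exact (Nat.log_le_self _ _).trans hs

lemma Pre_zero (a : A) : Pre g 0 a = univ := by
  ext b
  simp [mem_Pre]

/-- The product of the counts visible at level `x`. -/
def prodN (n : Fin d → ℕ) (g : A → Fin d → ℕ) (x : ℕ) (ω : ℕ → A) : ℕ :=
  ∏ l, ∏ s ∈ range (Nat.log (n l) x), cnt g l (ω s)

lemma nu_cyl_aux (h : Data n g) (x : ℕ) (ω : ℕ → A) {N₀ : ℕ} (hN : x ≤ N₀) :
    nu h (cyl n g x ω) = ∏ s ∈ range N₀, ∑ b ∈ Pre g (idx n x s) (ω s), wt g b := by
  rw [cyl_eq h, nu_box h _ N₀]
  intro s hs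
  rw [idx_eq_zero h (hN.trans hs), Pre_zero]

lemma nu_cyl (h : Data n g) (x : ℕ) (ω : ℕ → A) :
    nu h (cyl n g x ω) = ((prodN n g x ω : ℕ) : ℝ≥0∞)⁻¹ := by
  rw [nu_cyl_aux h x ω le_rfl, prodN]
  push_cast
  rw [ENNReal.prod_inv_distrib (fun _ _ _ _ _ => Or.inl (by
    rw [prod_ne_zero_iff]
    exact fun s _ => cnt_ne_zero _ _))]
  have h1 : ∀ l : Fin d, (∏ s ∈ range (Nat.log (n l) x), ((cnt g l (ω s) : ℕ) : ℝ≥0∞))⁻¹
      = ∏ s ∈ range (Nat.log (n l) x), ((cnt g l (ω s) : ℕ) : ℝ≥0∞)⁻¹ := by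
    intro l
    rw [ENNReal.prod_inv_distrib]
    exact fun _ _ _ _ _ => Or.inl (cnt_ne_zero _ _)
  simp only [h1]
  rw [prod_congr rfl (fun s _ => sum_Pre h (idx_le x s) (ω s))]
  simp only [pwt, lt_idx_iff h]
  apply prod_comm'
  intro s l
  simp only [mem_range, mem_filter, mem_univ, true_and]
  constructor
  · rintro ⟨h1, h2⟩
    exact ⟨h2, trivial⟩
  · rintro ⟨h1, _⟩
    exact ⟨lt_of_lt_of_le h1 (Nat.log_le_self _ _), h1⟩

/-- The key estimate: a long window of equal digits with alternatives is improbable. -/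
lemma nu_cyl_window (h : Data n g) (x : ℕ) (ω : ℕ → A) (j : Fin d) (e a b : ℕ)
    (ha : Nat.log (n j) x ≤ a) :
    nu h (cyl n g x ω ∩ {ω' | ∀ s, a ≤ s → s < b → g (ω' s) j = e ∧ 2 ≤ cnt g j (ω' s)})
      ≤ 2⁻¹ ^ (b - a) * nu h (cyl n g x ω) := by
  classical
  set N₀ := x + a + b with hN
  have h1 : cyl n g x ω ∩ {ω' | ∀ s, a ≤ s → s < b → g (ω' s) j = e ∧ 2 ≤ cnt g j (ω' s)}
      = {ω' | ∀ s, ω' s ∈ if a ≤ s ∧ s < b then
          (Pre g (idx n x s) (ω s)).filter (fun c => g c j = e ∧ 2 ≤ cnt g j c)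
          else Pre g (idx n x s) (ω s)} := by
    rw [cyl_eq h]
    ext ω'
    simp only [Set.mem_inter_iff, Set.mem_ofPred_eq]
    constructor
    · rintro ⟨h1, h2⟩ s
      split_ifs with hs
      · rw [mem_filter]
        exact ⟨h1 s, h2 s hs.1 hs.2⟩
      · exact h1 s
    · intro h1
      refine ⟨fun s => ?_, fun s hs hs' => ?_⟩
      · have := h1 s
        split_ifs at this with hs
        · exact (mem_filter.mp this).1
        · exact this
      · have := h1 s
        rw [if_pos ⟨hs, hs'⟩] at this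
        exact (mem_filter.mp this).2
  rw [h1, nu_box h _ N₀, nu_cyl_aux h x ω (show x ≤ N₀ by omega)]
  · have h2 : (2⁻¹ : ℝ≥0∞) ^ (b - a)
        = ∏ s ∈ range N₀, (if a ≤ s ∧ s < b then (2⁻¹ : ℝ≥0∞) else 1) := by
      rw [prod_ite, prod_const_one, mul_one, prod_const]
      congr 1
      have : (range N₀).filter (fun s => a ≤ s ∧ s < b) = Finset.Ico a b := by
        ext s
        simp only [mem_filter, mem_range, Finset.mem_Ico]
        omega
      rw [this, Nat.card_Ico]
    rw [h2, ← prod_mul_distrib]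
    refine prod_le_prod' fun s _ => ?_
    split_ifs with hs
    · apply sum_half h
      by_contra hc
      have := (lt_idx_iff h x s j).mp (not_le.mp hc)
      omega
    · rw [one_mul]
  · intro s hs
    rw [if_neg (by omega), idx_eq_zero h (by omega), Pre_zero]

end Pool.Agent.Lib_MP_8460ec_an
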