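import Pool.Agent.Lib_MP_8460ec_an.Geometry

/-!
# Ratios of masses of balls
-/

set_option linter.unusedSectionVars false
set_option linter.unusedVariables false

open Finset MeasureTheory
open scoped ENNReal

namespace Pool.Agent.Lib_MP_8460ec_an

lemma rpow_log_div {b F : ℕ} (hb : 1 < b) (hF : 1 ≤ F) (k : ℕ) :
    ((b : ℝ) ^ k) ^ (Real.log F / Real.log b) = (F : ℝ) ^ k := by
  have hb' : (1 : ℝ) < b := by exact_mod_cast hb
  have hF' : (1 : ℝ) ≤ F := by exact_mod_cast hF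
  have hlb : Real.log b ≠ 0 := (Real.log_pos hb').ne'
  rw [← Real.rpow_natCast (b : ℝ) k, ← Real.rpow_mul (by positivity),
    Real.rpow_def_of_pos (by positivity)]
  rw [show Real.log b * (k * (Real.log F / Real.log b)) = Real.log F * k by field_simp,
    ← Real.rpow_def_of_pos (by positivity), Real.rpow_natCast]

lemma pow_diff_le {b F x y : ℕ} (hb : 1 < b) (hF : 1 ≤ F) (hx : 1 ≤ x) (hxy : x ≤ y) :
    (F : ℝ) ^ (Nat.log b y - Nat.log b x)
      ≤ F * ((y : ℝ) / x) ^ (Real.log F / Real.log b) := by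
  have hb' : (1 : ℝ) < b := by exact_mod_cast hb
  have hF' : (1 : ℝ) ≤ F := by exact_mod_cast hF
  have hx' : (0 : ℝ) < x := by exact_mod_cast hx
  have hxy' : (x : ℝ) ≤ y := by exact_mod_cast hxy
  have hexp : 0 ≤ Real.log F / Real.log b :=
    div_nonneg (Real.log_nonneg hF') (Real.log_pos hb').le
  rcases Nat.eq_zero_or_pos (Nat.log b y - Nat.log b x) with h0 | h0
  · rw [h0, pow_zero]
    calc (1 : ℝ) = 1 * 1 := by ring
      _ ≤ F * ((y : ℝ) / x) ^ (Real.log F / Real.log b) := by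
        gcongr
        exact Real.one_le_rpow ((one_le_div hx').mpr hxy') hexp
  · obtain ⟨k, hk⟩ : ∃ k, Nat.log b y - Nat.log b x = k + 1 := ⟨_, (Nat.succ_pred_eq_of_pos h0).symm⟩
    rw [hk, pow_succ, mul_comm]
    gcongr
    rw [← rpow_log_div hb hF k]
    apply Real.rpow_le_rpow (by positivity) _ hexp
    rw [le_div_iff₀ hx']
    have h1 : x < b ^ (Nat.log b x + 1) := Nat.lt_pow_succ_log_self hb x
    have h2 : b ^ Nat.log b y ≤ y := Nat.pow_log_le_self b (by omega)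
    have h3 : b ^ k * x ≤ y := by
      calc b ^ k * x ≤ b ^ k * b ^ (Nat.log b x + 1) := Nat.mul_le_mul_left _ h1.le
        _ = b ^ Nat.log b y := by
          rw [← pow_add]
          congr 1
          omega
        _ ≤ y := h2
    exact_mod_cast h3

lemma le_pow_diff {b F x y : ℕ} (hb : 1 < b) (hF : 1 ≤ F) (hx : 1 ≤ x) (hxy : x ≤ y) :
    ((y : ℝ) / x) ^ (Real.log F / Real.log b)
      ≤ F * (F : ℝ) ^ (Nat.log b y - Nat.log b x) := by
  have hb' : (1 : ℝ) < b := by exact_mod_cast hb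
  have hF' : (1 : ℝ) ≤ F := by exact_mod_cast hF
  have hx' : (0 : ℝ) < x := by exact_mod_cast hx
  have hexp : 0 ≤ Real.log F / Real.log b :=
    div_nonneg (Real.log_nonneg hF') (Real.log_pos hb').le
  have hll : Nat.log b x ≤ Nat.log b y := Nat.log_mono_right hxy
  rw [mul_comm, ← pow_succ, ← rpow_log_div hb hF]
  apply Real.rpow_le_rpow (by positivity) _ hexp
  rw [div_le_iff₀ hx']
  have h1 : y < b ^ (Nat.log b y + 1) := Nat.lt_pow_succ_log_self hb y
  have h2 : b ^ Nat.log b x ≤ x := Nat.pow_log_le_self b (by omega)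
  have h3 : y ≤ b ^ (Nat.log b y - Nat.log b x + 1) * x := by
    calc y ≤ b ^ (Nat.log b y + 1) := h1.le
      _ = b ^ (Nat.log b y - Nat.log b x + 1) * b ^ Nat.log b x := by
        rw [← pow_add]
        congr 1
        omega
      _ ≤ _ := Nat.mul_le_mul_left _ h2
  exact_mod_cast h3

variable {d : ℕ} {n : Fin d → ℕ}

/-- The dimension-type exponent attached to numbers `F l`. -/
noncomputable def expo (n F : Fin d → ℕ) : ℝ := ∑ l, Real.log (F l) / Real.log (n l)

lemma expo_nonneg (F : Fin d → ℕ) : 0 ≤ expo n F :=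
  sum_nonneg fun l _ => div_nonneg (Real.log_natCast_nonneg _) (Real.log_natCast_nonneg _)

/-- `∏ F l ^ (log y - log x)`. -/
def winProd (n F : Fin d → ℕ) (x y : ℕ) : ℕ := ∏ l, F l ^ (Nat.log (n l) y - Nat.log (n l) x)

lemma winProd_le (hn : ∀ l, 1 < n l) {F : Fin d → ℕ} (hF : ∀ l, 1 ≤ F l) {x y : ℕ}
    (hx : 1 ≤ x) (hxy : x ≤ y) :
    (winProd n F x y : ℝ) ≤ (∏ l, (F l : ℝ)) * ((y : ℝ) / x) ^ expo n F := by
  have hx' : (0 : ℝ) < x := by exact_mod_cast hx
  have hy' : (0 : ℝ) < y := by exact_mod_cast hx.trans hxy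
  rw [winProd, expo, Real.rpow_sum_of_pos (by positivity), ← prod_mul_distrib]
  push_cast
  exact prod_le_prod (fun l _ => by positivity) fun l _ => pow_diff_le (hn l) (hF l) hx hxy

lemma le_winProd (hn : ∀ l, 1 < n l) {F : Fin d → ℕ} (hF : ∀ l, 1 ≤ F l) {x y : ℕ}
    (hx : 1 ≤ x) (hxy : x ≤ y) :
    ((y : ℝ) / x) ^ expo n F ≤ (∏ l, (F l : ℝ)) * (winProd n F x y : ℝ) := by
  have hx' : (0 : ℝ) < x := by exact_mod_cast hx
  have hy' : (0 : ℝ) < y := by exact_mod_cast hx.trans hxy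
  rw [winProd, expo, Real.rpow_sum_of_pos (by positivity)]
  push_cast
  rw [← prod_mul_distrib]
  exact prod_le_prod (fun l _ => by positivity) fun l _ => le_pow_diff (hn l) (hF l) hx hxy

variable {A : Type} [Fintype A] {g : A → Fin d → ℕ}

lemma prod_range_diff (f : ℕ → ℕ) {a b : ℕ} (hab : a ≤ b) :
    ∏ t ∈ range b, f t = (∏ t ∈ range a, f t) * ∏ t ∈ range (b - a), f (a + t) := by
  conv_lhs => rw [show b = a + (b - a) by omega]
  rw [prod_range_add]

lemma prodT_le_winProd (h : Data n g) {F : Fin d → ℕ} (hF : ∀ l t ω, cntT n g l t ω ≤ F l)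
    {x y : ℕ} (hxy : x ≤ y) (ω : ℕ → A) :
    prodT n g y ω ≤ prodT n g x ω * winProd n F x y := by
  rw [prodT, prodT, winProd, ← prod_mul_distrib]
  refine prod_le_prod' fun l _ => ?_
  rw [prod_range_diff _ (Nat.log_mono_right hxy)]
  refine Nat.mul_le_mul_left _ ?_
  calc ∏ t ∈ range (Nat.log (n l) y - Nat.log (n l) x), cntT n g l (Nat.log (n l) x + t) ω
      ≤ ∏ t ∈ range (Nat.log (n l) y - Nat.log (n l) x), F l :=
        prod_le_prod' fun t _ => hF _ _ _
    _ = _ := by rw [prod_const, card_range]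

lemma winProd_le_prodT (h : Data n g) {F : Fin d → ℕ} (hF : ∀ l t ω, F l ≤ cntT n g l t ω)
    {x y : ℕ} (hxy : x ≤ y) (ω : ℕ → A) :
    prodT n g x ω * winProd n F x y ≤ prodT n g y ω := by
  rw [prodT, prodT, winProd, ← prod_mul_distrib]
  refine prod_le_prod' fun l _ => ?_
  rw [prod_range_diff _ (Nat.log_mono_right hxy)]
  refine Nat.mul_le_mul_left _ ?_
  calc F l ^ (Nat.log (n l) y - Nat.log (n l) x)
      = ∏ t ∈ range (Nat.log (n l) y - Nat.log (n l) x), F l := by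
        rw [prod_const, card_range]
    _ ≤ _ := prod_le_prod' fun t _ => hF _ _ _

/-- The set of points in a given neighbouring position. -/
def pos (n : Fin d → ℕ) (g : A → Fin d → ℕ) (x : ℕ) (ω : ℕ → A) (v : Fin d → Fin 3) :
    Set (ℕ → A) :=
  {ω' | ∀ j, U n g j (Nat.log (n j) x) ω' + 1 = U n g j (Nat.log (n j) x) ω + v j}

lemma exists_pos {x : ℕ} {ω ω' : ℕ → A} (hn : ∀ j, NbAt n g j x ω ω') :
    ∃ v, ω' ∈ pos n g x ω v := by
  have : ∀ j, ∃ v : Fin 3,
      U n g j (Nat.log (n j) x) ω' + 1 = U n g j (Nat.log (n j) x) ω + v := by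
    intro j
    obtain ⟨h1, h2⟩ := hn j
    exact ⟨⟨U n g j (Nat.log (n j) x) ω' + 1 - U n g j (Nat.log (n j) x) ω, by omega⟩,
      by simp only; omega⟩
  choose v hv using this
  exact ⟨v, hv⟩

lemma nbAt_of_pos {x : ℕ} {ω ω' : ℕ → A} {v : Fin d → Fin 3} (hv : ω' ∈ pos n g x ω v)
    (j : Fin d) : NbAt n g j x ω ω' := by
  have h1 := hv j
  have h2 := (v j).2
  constructor <;> omega

lemma pos_subset_cyl (h : Data n g) {x : ℕ} {ω ω' : ℕ → A} {v : Fin d → Fin 3}
    (hv : ω' ∈ pos n g x ω v) : pos n g x ω v ⊆ cyl n g x ω' := by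
  intro ω'' hv'' j
  have h1 := hv j
  have h2 := hv'' j
  have h3 : U n g j (Nat.log (n j) x) ω'' = U n g j (Nat.log (n j) x) ω' := by omega
  exact digits_eq_of_num_eq (dig_lt h j ω'') (dig_lt h j ω') h3

variable [MeasurableSpace A] [DiscreteMeasurableSpace A] [Nonempty A]

lemma mu_ball_le (h : Data n g) {x : ℕ} (hx : 1 ≤ x) {R : ℝ} (hR : R * x ≤ 1) (ω : ℕ → A) :
    mu h (tau n g ⁻¹' Metric.ball (tau n g ω) R)
      ≤ ((3 ^ d * bd n ^ (d * d) : ℕ) : ℝ≥0∞) * (prodT n g x ω : ℝ≥0∞)⁻¹ := by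
  have hx' : (0 : ℝ) < x := by exact_mod_cast hx
  have hsub : tau n g ⁻¹' Metric.ball (tau n g ω) R ⊆ ⋃ v, pos n g x ω v := by
    intro ω' hω'
    rw [Set.mem_preimage, Metric.mem_ball, dist_comm] at hω'
    have h1 : dist (tau n g ω) (tau n g ω') < 1 / x := by
      refine hω'.trans_le ?_
      rw [le_div_iff₀ hx']
      exact hR
    obtain ⟨v, hv⟩ := exists_pos (nbAt_of_dist h hx h1)
    exact Set.mem_iUnion.mpr ⟨v, hv⟩
  have hpos : ∀ v, mu h (pos n g x ω v)
      ≤ ((bd n ^ (d * d) : ℕ) : ℝ≥0∞) * (prodT n g x ω : ℝ≥0∞)⁻¹ := by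
    intro v
    rcases Set.eq_empty_or_nonempty (pos n g x ω v) with he | ⟨ω', hω'⟩
    · rw [he, measure_empty]
      exact bot_le
    · refine (measure_mono (pos_subset_cyl h hω')).trans ((mu_cyl_le h x ω').trans ?_)
      have h1 := prodT_le_of_nb h (nbAt_of_pos hω')
      have h2 : (prodT n g x ω : ℝ≥0∞) ≤ (bd n ^ (d * d) : ℕ) * (prodT n g x ω' : ℝ≥0∞) := by
        exact_mod_cast h1
      have h3 : (prodT n g x ω' : ℝ≥0∞) ≠ 0 := by
        have := one_le_prodT (n := n) (g := g) x ω'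
        simp only [ne_eq, Nat.cast_eq_zero]
        omega
      have h4 : (prodT n g x ω : ℝ≥0∞) ≠ 0 := by
        have := one_le_prodT (n := n) (g := g) x ω
        simp only [ne_eq, Nat.cast_eq_zero]
        omega
      rw [← div_eq_mul_inv, ENNReal.le_div_iff_mul_le (Or.inl h4)
        (Or.inl (ENNReal.natCast_ne_top _)), mul_comm, ← div_eq_mul_inv]
      exact ENNReal.div_le_of_le_mul h2
  calc mu h (tau n g ⁻¹' Metric.ball (tau n g ω) R) ≤ mu h (⋃ v, pos n g x ω v) :=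
        measure_mono hsub
    _ ≤ ∑ v : Fin d → Fin 3, mu h (pos n g x ω v) := by
        refine (measure_iUnion_le _).trans ?_
        rw [tsum_fintype]
    _ ≤ ∑ v : Fin d → Fin 3, ((bd n ^ (d * d) : ℕ) : ℝ≥0∞) * (prodT n g x ω : ℝ≥0∞)⁻¹ :=
        sum_le_sum fun v _ => hpos v
    _ = _ := by
        rw [sum_const, card_univ, Fintype.card_pi, prod_const, card_univ, Fintype.card_fin,
          Fintype.card_fin, nsmul_eq_mul]
        push_cast
        ring

lemma le_mu_ball (h : Data n g) (hd : 0 < d) {x : ℕ} (hx : 1 ≤ x) {r : ℝ}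
    (hr : (bd n : ℝ) ≤ r * x) (ω : ℕ → A) :
    mu h (cyl n g x ω) ≤ mu h (tau n g ⁻¹' Metric.ball (tau n g ω) r) := by
  have hx' : (0 : ℝ) < x := by exact_mod_cast hx
  refine measure_mono fun ω' hω' => ?_
  rw [Set.mem_preimage, Metric.mem_ball]
  refine (dist_lt_of_mem_cyl h hd hx hω').trans_le ?_
  rw [div_le_iff₀ hx']
  exact hr

end Pool.Agent.Lib_MP_8460ec_an
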