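import Pool.Agent.Lib_MP_8460ec_an.Words

/-!
# Digits, prefixes and the coordinate uniform measure on the digit set
-/

open Finset MeasureTheory
open scoped ENNReal

namespace Pool.Agent.Lib_MP_8460ec_an

/-- Digit data: `A` is the (index type of the) digit set, `g a l` is the `l`-th digit of `a`. -/
structure Data {d : ℕ} {A : Type} (n : Fin d → ℕ) (g : A → Fin d → ℕ) : Prop where
  one_lt : ∀ l, 1 < n l
  mono : StrictMono n
  lt : ∀ a l, g a l < n l
  inj : Function.Injective g

variable {d : ℕ} {A : Type} [Fintype A] {n : Fin d → ℕ}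

/-- The digits which share the first `i` coordinates with `a`. -/
def Pre (g : A → Fin d → ℕ) (i : ℕ) (a : A) : Finset A :=
  univ.filter fun b => ∀ j : Fin d, j.1 < i → g b j = g a j

/-- The number of possible `l`-th coordinates given the coordinates of `a` before `l`. -/
def cnt (g : A → Fin d → ℕ) (l : Fin d) (a : A) : ℕ :=
  ((Pre g l.1 a).image fun b => g b l).card

variable {g : A → Fin d → ℕ}

lemma mem_Pre {i : ℕ} {a b : A} : b ∈ Pre g i a ↔ ∀ j : Fin d, j.1 < i → g b j = g a j := by
  simp [Pre]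

lemma self_mem_Pre (i : ℕ) (a : A) : a ∈ Pre g i a := by simp [Pre]

lemma Pre_congr {i : ℕ} {a b : A} (h : b ∈ Pre g i a) : Pre g i b = Pre g i a := by
  rw [mem_Pre] at h
  ext c
  rw [mem_Pre, mem_Pre]
  constructor
  · intro hc j hj
    rw [hc j hj, h j hj]
  · intro hc j hj
    rw [hc j hj, h j hj]

lemma Pre_mono {i j : ℕ} (hij : i ≤ j) {a b : A} (h : b ∈ Pre g j a) : b ∈ Pre g i a := by
  rw [mem_Pre] at h ⊢
  exact fun k hk => h k (by omega)

lemma cnt_congr {l : Fin d} {a b : A} (h : ∀ j < l, g b j = g a j) : cnt g l b = cnt g l a := by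
  have : b ∈ Pre g l.1 a := by
    rw [mem_Pre]
    exact fun j hj => h j hj
  rw [cnt, cnt, Pre_congr this]

lemma one_le_cnt (l : Fin d) (a : A) : 1 ≤ cnt g l a := by
  rw [cnt, Nat.one_le_iff_ne_zero]
  exact (Finset.card_pos.mpr
    ⟨g a l, mem_image_of_mem (fun b => g b l) (self_mem_Pre _ _)⟩).ne'

lemma cnt_le (h : Data n g) (l : Fin d) (a : A) : cnt g l a ≤ n l := by
  have : (Pre g l.1 a).image (fun b => g b l) ⊆ range (n l) := by
    intro v hv
    obtain ⟨b, _, rfl⟩ := mem_image.mp hv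
    exact mem_range.mpr (h.lt b l)
  calc cnt g l a ≤ (range (n l)).card := card_le_card this
    _ = n l := card_range _

lemma two_le_cnt {l : Fin d} {a b : A} (h : ∀ j < l, g b j = g a j) (hne : g b l ≠ g a l) :
    2 ≤ cnt g l a := by
  rw [cnt]
  have h1 : g a l ∈ (Pre g l.1 a).image fun b => g b l :=
    mem_image_of_mem (fun b => g b l) (self_mem_Pre _ _)
  have h2 : g b l ∈ (Pre g l.1 a).image fun b => g b l :=
    mem_image_of_mem (fun b => g b l) (mem_Pre.mpr fun j hj => h j hj)
  exact Finset.one_lt_card.mpr ⟨_, h1, _, h2, hne.symm⟩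

/-- The weights of the coordinate uniform measure. -/
noncomputable def wt (g : A → Fin d → ℕ) (a : A) : ℝ≥0∞ := ∏ l, ((cnt g l a : ℕ) : ℝ≥0∞)⁻¹

lemma cnt_ne_zero (l : Fin d) (a : A) : ((cnt g l a : ℕ) : ℝ≥0∞) ≠ 0 := by
  have := one_le_cnt (g := g) l a
  simp only [ne_eq, Nat.cast_eq_zero]
  omega

/-- The product of the first `i` factors. -/
noncomputable def pwt (g : A → Fin d → ℕ) (i : ℕ) (a : A) : ℝ≥0∞ :=
  ∏ l ∈ univ.filter (fun l : Fin d => l.1 < i), ((cnt g l a : ℕ) : ℝ≥0∞)⁻¹

lemma pwt_congr {i j : ℕ} (hij : i ≤ j + 1) {a b : A} (h : b ∈ Pre g j a) :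
    pwt g i b = pwt g i a := by
  rw [mem_Pre] at h
  refine prod_congr rfl fun l hl => ?_
  rw [mem_filter] at hl
  rw [cnt_congr]
  intro k hk
  exact h k (by have : k.1 < l.1 := hk; omega)

lemma pwt_succ {i : ℕ} (hi : i < d) (a : A) :
    pwt g (i + 1) a = pwt g i a * ((cnt g ⟨i, hi⟩ a : ℕ) : ℝ≥0∞)⁻¹ := by
  have : univ.filter (fun l : Fin d => l.1 < i + 1)
      = insert (⟨i, hi⟩ : Fin d) (univ.filter (fun l : Fin d => l.1 < i)) := by
    ext l
    simp only [mem_filter, mem_univ, true_and, mem_insert, Fin.ext_iff]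
    omega
  rw [pwt, this, prod_insert (by simp), mul_comm]
  rfl

lemma sum_Pre (h : Data n g) {i : ℕ} (hi : i ≤ d) (a : A) :
    ∑ b ∈ Pre g i a, wt g b = pwt g i a := by
  induction hk : d - i generalizing i a with
  | zero =>
    have hid : i = d := by omega
    subst hid
    have : Pre g i a = {a} := by
      ext b
      rw [mem_Pre, mem_singleton]
      constructor
      · intro hb
        exact h.inj (funext fun j => hb j j.2)
      · rintro rfl
        exact fun _ _ => rfl
    rw [this, sum_singleton, wt, pwt]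
    congr 1
    ext l
    simp
  | succ k ih =>
    have hid : i < d := by omega
    classical
    rw [← sum_fiberwise_of_maps_to (s := Pre g i a) (t := (Pre g i a).image fun b => g b ⟨i, hid⟩)
      (g := fun b => g b ⟨i, hid⟩) (fun b hb => mem_image_of_mem _ hb)]
    have key : ∀ v ∈ (Pre g i a).image (fun b => g b ⟨i, hid⟩),
        ∑ b ∈ (Pre g i a).filter (fun b => g b ⟨i, hid⟩ = v), wt g b
          = pwt g i a * ((cnt g ⟨i, hid⟩ a : ℕ) : ℝ≥0∞)⁻¹ := by
      intro v hv
      obtain ⟨c, hc, rfl⟩ := mem_image.mp hv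
      have h1 : (Pre g i a).filter (fun b => g b ⟨i, hid⟩ = g c ⟨i, hid⟩) = Pre g (i + 1) c := by
        rw [← Pre_congr hc]
        ext b
        simp only [mem_filter, mem_Pre]
        constructor
        · rintro ⟨h1, h2⟩ j hj
          rcases Nat.lt_succ_iff_lt_or_eq.mp hj with hj | hj
          · exact h1 j hj
          · have : j = ⟨i, hid⟩ := Fin.ext hj
            rw [this, h2]
        · intro h1
          exact ⟨fun j hj => h1 j (by omega), h1 _ (Nat.lt_succ_self i)⟩
      rw [h1, ih (by omega) c (by omega), ← pwt_succ hid, pwt_congr le_rfl hc]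
    rw [sum_congr rfl key, sum_const, nsmul_eq_mul]
    have h2 : ((Pre g i a).image (fun b => g b ⟨i, hid⟩)).card = cnt g ⟨i, hid⟩ a := rfl
    rw [h2, mul_comm, mul_assoc,
      ENNReal.inv_mul_cancel (cnt_ne_zero _ _) (ENNReal.natCast_ne_top _), mul_one]

lemma sum_wt (h : Data n g) [Nonempty A] : ∑ a, wt g a = 1 := by
  obtain ⟨a⟩ := ‹Nonempty A›
  have := sum_Pre h (Nat.zero_le d) a
  have h1 : Pre g 0 a = univ := by
    ext b
    simp [mem_Pre]
  rw [h1] at this
  rw [this, pwt]
  simp

/-- Given the first `i` coordinates, a digit `e` with an alternative in coordinate `j` has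
probability at most one half. -/
lemma sum_half (h : Data n g) {i : ℕ} {j : Fin d} (hi : i ≤ j.1) (a : A) (e : ℕ) :
    ∑ b ∈ (Pre g i a).filter (fun b => g b j = e ∧ 2 ≤ cnt g j b), wt g b
      ≤ 2⁻¹ * ∑ b ∈ Pre g i a, wt g b := by
  classical
  -- group according to the first `j` coordinates
  set G : A → (Fin d → ℕ) := fun b k => if k.1 < j.1 then g b k else 0 with hG
  have hGP : ∀ b c : A, G b = G c ↔ b ∈ Pre g j.1 c := by
    intro b c
    rw [mem_Pre]
    constructor
    · intro hbc k hk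
      have := congrFun hbc k
      simp only [hG] at this
      rwa [if_pos hk, if_pos hk] at this
    · intro hbc
      funext k
      simp only [hG]
      split_ifs with hk
      · exact hbc k hk
      · rfl
  rw [← sum_fiberwise_of_maps_to (s := (Pre g i a).filter (fun b => g b j = e ∧ 2 ≤ cnt g j b))
      (t := (Pre g i a).image G) (g := G)
      (fun b hb => mem_image_of_mem _ (mem_filter.mp hb).1),
    ← sum_fiberwise_of_maps_to (s := Pre g i a) (t := (Pre g i a).image G) (g := G)
      (fun b hb => mem_image_of_mem _ hb), mul_sum]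
  refine sum_le_sum fun κ hκ => ?_
  obtain ⟨c, hc, rfl⟩ := mem_image.mp hκ
  have h2 : (Pre g i a).filter (fun b => G b = G c) = Pre g j.1 c := by
    ext b
    rw [mem_filter, hGP]
    constructor
    · exact fun h => h.2
    · intro hb
      refine ⟨?_, hb⟩
      rw [← Pre_congr hc]
      exact Pre_mono hi hb
  rw [h2, sum_Pre h j.2.le]
  -- the left-hand side
  by_cases hex : ∃ b ∈ Pre g j.1 c, g b j = e ∧ 2 ≤ cnt g j b
  · obtain ⟨b, hb, hbe, hb2⟩ := hex
    have hcb : cnt g j b = cnt g j c := cnt_congr fun k hk => (mem_Pre.mp hb) k hk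
    have h3 : ((Pre g i a).filter (fun b => g b j = e ∧ 2 ≤ cnt g j b)).filter
        (fun b => G b = G c) ⊆ Pre g (j.1 + 1) b := by
      intro b' hb'
      rw [mem_filter, mem_filter, hGP] at hb'
      obtain ⟨⟨_, h4, _⟩, h5⟩ := hb'
      rw [← Pre_congr hb] at h5
      rw [mem_Pre] at h5 ⊢
      intro k hk
      rcases Nat.lt_succ_iff_lt_or_eq.mp hk with hk | hk
      · exact h5 k hk
      · have : k = j := Fin.ext hk
        rw [this, h4, hbe]
    refine (sum_le_sum_of_subset h3).trans ?_
    calc ∑ b ∈ Pre g (j.1 + 1) b, wt g b = pwt g j.1 b * ((cnt g j b : ℕ) : ℝ≥0∞)⁻¹ := by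
          rw [sum_Pre h j.2, pwt_succ j.2]
      _ ≤ pwt g j.1 b * 2⁻¹ := by
          gcongr
          exact_mod_cast hb2
      _ = 2⁻¹ * pwt g j.1 c := by
          rw [mul_comm, pwt_congr (Nat.le_succ _) hb]
  · have h3 : ((Pre g i a).filter (fun b => g b j = e ∧ 2 ≤ cnt g j b)).filter
        (fun b => G b = G c) = ∅ := by
      ext b'
      rw [mem_filter, mem_filter, hGP]
      simp only [notMem_empty, iff_false]
      rintro ⟨⟨_, h4⟩, h5⟩
      exact hex ⟨b', h5, h4⟩
    rw [h3, sum_empty]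
    exact bot_le

end Pool.Agent.Lib_MP_8460ec_an
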