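import Pool.Agent.Lib_MP_8460ec_an.Dim

/-!
# Special points, and the comparison of the exponents with the dimensions
-/

set_option linter.unusedSectionVars false
set_option linter.unusedVariables false

open Finset MeasureTheory
open scoped ENNReal

namespace Pool.Agent.Lib_MP_8460ec_an

variable {d : ℕ} {n : Fin d → ℕ} {A : Type} [Fintype A] {g : A → Fin d → ℕ}

/-- In every interval of length `a` every residue modulo `a` occurs. -/
lemma exists_residue {a r : ℕ} (hr : r < a) (s₀ : ℕ) : ∃ s, s₀ ≤ s ∧ s < s₀ + a ∧ s % a = r := by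
  set q := (s₀ + (a - 1 - r)) / a with hq
  have ha : 0 < a := by omega
  have h1 : a * q ≤ s₀ + (a - 1 - r) := Nat.mul_div_le _ _
  have h2 : s₀ + (a - 1 - r) < a * q + a := by
    have := Nat.lt_mul_div_succ (s₀ + (a - 1 - r)) ha
    rw [Nat.mul_add, Nat.mul_one] at this
    exact this
  refine ⟨a * q + r, by omega, by omega, ?_⟩
  rw [Nat.mul_add_mod]
  exact Nat.mod_eq_of_lt hr

lemma exists_special (h : Data n g) (hd : 0 < d) [Nonempty A] (f : Fin d → A) (v X₀ : ℕ) :
    ∃ X, X₀ ≤ X ∧ 1 ≤ X ∧ ∃ ω : ℕ → A, ∀ ω' : ℕ → A, (∀ j, NbAt n g j X ω ω') →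
      ∀ l t, Nat.log (n l) X ≤ t → t < Nat.log (n l) (X * 2 ^ v) →
        cnt g l (ω' t) = cnt g l (f l) := by
  classical
  set a := Fintype.card A with ha
  have ha0 : 0 < a := Fintype.card_pos
  set B := bd n with hB
  have hB2 : 2 ≤ B := by
    have := h.one_lt ⟨0, hd⟩
    have := n_le_bd (n := n) ⟨0, hd⟩
    omega
  set v₀ := B * a with hv₀
  set e₀ := (v + v₀) * B + X₀ + 1 with he₀
  set X := B ^ e₀ with hX
  have hX1 : 1 ≤ X := Nat.one_le_pow _ _ (by omega)
  have hlogX : ∀ l, (v + v₀) * B ≤ Nat.log (n l) X := by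
    intro l
    have : e₀ ≤ Nat.log (n l) X := by
      apply Nat.le_log_of_pow_le (h.one_lt l)
      exact Nat.pow_le_pow_left (n_le_bd l) _
    omega
  have hXX : X ≤ X * 2 ^ v := Nat.le_mul_of_pos_right _ (by positivity)
  -- gaps
  have hgap : ∀ j l : Fin d, j < l →
      Nat.log (n l) (X * 2 ^ v) + a ≤ Nat.log (n j) X := by
    intro j l hjl
    set t := Nat.log (n l) (X * 2 ^ v) with ht
    have h1 : n l ^ t ≤ X * 2 ^ v := Nat.pow_log_le_self _ (by positivity)
    have h2 : (v + v₀) * n j ≤ t := by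
      calc (v + v₀) * n j ≤ (v + v₀) * B := Nat.mul_le_mul_left _ (n_le_bd j)
        _ ≤ Nat.log (n l) X := hlogX l
        _ ≤ t := Nat.log_mono_right hXX
    have h3 := pow_mul_two_pow_le (by have := h.one_lt j; omega) (h.mono hjl) h2
    have h4 : n j ^ t * 2 ^ v₀ ≤ X := by
      have h5 : (n j ^ t * 2 ^ v₀) * 2 ^ v ≤ X * 2 ^ v := by
        calc (n j ^ t * 2 ^ v₀) * 2 ^ v = n j ^ t * 2 ^ (v + v₀) := by rw [pow_add]; ring
          _ ≤ n l ^ t := h3
          _ ≤ X * 2 ^ v := h1
      exact Nat.le_of_mul_le_mul_right h5 (by positivity)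
    apply Nat.le_log_of_pow_le (h.one_lt j)
    calc n j ^ (t + a) = n j ^ t * n j ^ a := pow_add _ _ _
      _ ≤ n j ^ t * 2 ^ v₀ := by
        refine Nat.mul_le_mul_left _ ?_
        rw [hv₀, pow_mul]
        exact Nat.pow_le_pow_left ((n_le_bd j).trans Nat.lt_two_pow_self.le) _
      _ ≤ X := h4
  set win : Fin d → ℕ → Prop := fun l t =>
    Nat.log (n l) X ≤ t ∧ t < Nat.log (n l) (X * 2 ^ v) with hwin
  have huniq : ∀ l l' t, win l t → win l' t → l = l' := by
    have aux : ∀ l l' t, l < l' → win l t → win l' t → False := by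
      intro l l' t hll h1 h2
      have := hgap l l' hll
      have h3 := h1.1
      have h4 := h2.2
      omega
    intro l l' t h1 h2
    rcases lt_trichotomy l l' with h3 | h3 | h3
    · exact (aux l l' t h3 h1 h2).elim
    · exact h3
    · exact (aux l' l t h3 h2 h1).elim
  set ω : ℕ → A := fun t => if ht : ∃ l, win l t then f ht.choose
    else (Fintype.equivFin A).symm ⟨t % a, Nat.mod_lt _ ha0⟩ with hω
  have hω1 : ∀ l t, win l t → ω t = f l := by
    intro l t hlt
    have hex : ∃ l, win l t := ⟨l, hlt⟩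
    simp only [hω]
    rw [dif_pos hex]
    congr 1
    exact huniq _ _ t hex.choose_spec hlt
  have hω2 : ∀ t, (¬ ∃ l, win l t) →
      ω t = (Fintype.equivFin A).symm ⟨t % a, Nat.mod_lt _ ha0⟩ := by
    intro t ht
    simp only [hω]
    rw [dif_neg ht]
  refine ⟨X, ?_, hX1, ω, ?_⟩
  · calc X₀ ≤ e₀ := by omega
      _ ≤ B ^ e₀ := (Nat.lt_pow_self (by omega)).le
  · intro ω' hnb l t ht1 ht2
    rw [← hω1 l t ⟨ht1, ht2⟩]
    apply cnt_congr
    intro j hj
    by_contra hne
    have hgj := hgap j l hj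
    have ht3 : t + 1 ≤ Nat.log (n j) X := by omega
    have hUne : U n g j (t + 1) ω ≠ U n g j (t + 1) ω' := by
      intro heq
      exact hne (digits_eq_of_num_eq (dig_lt h j ω) (dig_lt h j ω') heq t
        (Nat.lt_succ_self t)).symm
    obtain ⟨e, _, hrun⟩ := extreme_of_nb (dig_lt h j ω) (dig_lt h j ω') ht3 hUne (hnb j)
    have hall : ∀ c : A, g c j = e := by
      intro c
      obtain ⟨s, hs1, hs2, hs3⟩ := exists_residue (Fintype.equivFin A c).2
        (Nat.log (n l) (X * 2 ^ v))
      have hnw : ¬ ∃ l', win l' s := by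
        rintro ⟨l', hl1, hl2⟩
        rcases lt_trichotomy l' l with h3 | h3 | h3
        · have := hgap l' l h3
          omega
        · subst h3
          omega
        · have := log_anti h (X * 2 ^ v) h3.le
          omega
      have h5 := (hrun s (by omega) (by omega)).1
      have h6 : ω s = c := by
        rw [hω2 s hnw]
        have : (⟨s % a, Nat.mod_lt _ ha0⟩ : Fin a) = Fintype.equivFin A c := Fin.ext hs3
        rw [this]
        simp
      rw [← h6]
      exact h5
    exact hne ((hall _).trans (hall _).symm)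

lemma prodN_le_winProd (h : Data n g) {F : Fin d → ℕ} (hF : ∀ l a, cnt g l a ≤ F l)
    {x y : ℕ} (hxy : x ≤ y) (ω : ℕ → A) :
    prodN n g y ω ≤ prodN n g x ω * winProd n F x y := by
  rw [prodN, prodN, winProd, ← prod_mul_distrib]
  refine prod_le_prod' fun l _ => ?_
  rw [prod_range_diff _ (Nat.log_mono_right hxy)]
  refine Nat.mul_le_mul_left _ ?_
  calc ∏ t ∈ range (Nat.log (n l) y - Nat.log (n l) x), cnt g l (ω (Nat.log (n l) x + t))
      ≤ ∏ t ∈ range (Nat.log (n l) y - Nat.log (n l) x), F l :=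
        prod_le_prod' fun t _ => hF _ _
    _ = _ := by rw [prod_const, card_range]

lemma prodN_eq_winProd (h : Data n g) {F : Fin d → ℕ} {x y : ℕ} (hxy : x ≤ y) (ω : ℕ → A)
    (hF : ∀ l t, Nat.log (n l) x ≤ t → t < Nat.log (n l) y → cnt g l (ω t) = F l) :
    prodN n g y ω = prodN n g x ω * winProd n F x y := by
  rw [prodN, prodN, winProd, ← prod_mul_distrib]
  refine prod_congr rfl fun l _ => ?_
  rw [prod_range_diff _ (Nat.log_mono_right hxy)]
  congr 1
  rw [← card_range (Nat.log (n l) y - Nat.log (n l) x), ← prod_const]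
  rw [card_range]
  refine prod_congr rfl fun t ht => ?_
  rw [mem_range] at ht
  exact hF l _ (by omega) (by omega)

/-- Comparison of exponents. -/
lemma le_of_two_pow {e s C : ℝ} (v₁ : ℕ)
    (hC : ∀ v : ℕ, v₁ ≤ v → ((2 : ℝ) ^ v) ^ e ≤ C * ((2 : ℝ) ^ v) ^ s) : e ≤ s := by
  by_contra hc
  push Not at hc
  have h1 : Filter.Tendsto (fun v : ℕ => ((2 : ℝ) ^ v) ^ (e - s)) Filter.atTop Filter.atTop :=
    (tendsto_rpow_atTop (by linarith)).comp (tendsto_pow_atTop_atTop_of_one_lt (by norm_num))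
  obtain ⟨v, hv1, hv2⟩ := ((h1.eventually_gt_atTop C).and
    (Filter.eventually_ge_atTop v₁)).exists
  have h2 := hC v hv2
  have h3 : (0 : ℝ) < 2 ^ v := by positivity
  rw [Real.rpow_sub h3, lt_div_iff₀ (by positivity)] at hv1
  linarith

variable [MeasurableSpace A] [DiscreteMeasurableSpace A] [Nonempty A]

/-- The upper exponent is at most the Assouad dimension. -/
lemma expo_le_dimA (h : Data n g) (hd : 0 < d) (f : Fin d → A)
    (hf : ∀ l a, cnt g l a ≤ cnt g l (f l)) :
    expo n (fun l => cnt g l (f l)) ≤ dimA (Set.range (tau n g)) := by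
  set F : Fin d → ℕ := fun l => cnt g l (f l) with hF
  have hF1 : ∀ l, 1 ≤ F l := fun l => one_le_cnt _ _
  have hB := one_le_bd h hd
  have hB' : (1 : ℝ) ≤ bd n := by exact_mod_cast hB
  have hPF : (0 : ℝ) < ∏ l, (F l : ℝ) := prod_pos fun l _ => by exact_mod_cast hF1 l
  have he := expo_nonneg (n := n) F
  apply le_csInf
  · -- the set is nonempty
    refine ⟨expo n F, he, 3 ^ d * ((∏ l, (F l : ℝ)) * (4 * bd n : ℝ) ^ expo n F), by positivity,
      1, one_pos, ?_⟩
    rintro r R hr hrR hR1 _ ⟨ω, rfl⟩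
    have hR : 0 < R := hr.trans hrR
    set X := ⌊1 / R⌋₊ with hX
    set Y := ⌈(bd n : ℝ) / r⌉₊ with hY
    obtain ⟨h1, h2, h3⟩ := floor_ge hR hR1
    obtain ⟨h4, h5, h6⟩ := ceil_le hB' hr (hrR.le.trans hR1)
    rw [← hX] at h1 h2 h3
    rw [← hY] at h4 h5 h6
    have hX' : (0 : ℝ) < X := by exact_mod_cast h1
    have hY' : (0 : ℝ) < Y := by exact_mod_cast h4
    have hXY : X ≤ Y := by
      have : (X : ℝ) ≤ Y := by
        by_contra hc'
        push Not at hc'
        have h7 : r * Y < R * X := by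
          calc r * Y < r * X := mul_lt_mul_of_pos_left hc' hr
            _ ≤ R * X := by gcongr
        linarith
      exact_mod_cast this
    have hq : (Y : ℝ) / X ≤ 4 * bd n * (R / r) := by
      rw [div_le_iff₀ hX']
      have h8 : (Y : ℝ) ≤ 2 * bd n / r := by rw [le_div_iff₀ hr]; linarith
      have h9 : 4 * (bd n : ℝ) * (R / r) * X = 2 * bd n / r * (2 * R * X) := by ring
      rw [h9]
      refine h8.trans ?_
      have : 0 < 2 * (bd n : ℝ) / r := by positivity
      nlinarith
    have hw := winProd_le h.one_lt hF1 h1 hXY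
    have hcov := covNum_ball_le h hd h1 hXY h3 h6 ω (winProd n F X Y)
      (fun ω' _ => prodN_le_winProd h hf hXY ω')
    calc (covNum r (Metric.ball (tau n g ω) R ∩ Set.range (tau n g)) : ℝ)
        ≤ 3 ^ d * (winProd n F X Y : ℝ) := by exact_mod_cast hcov
      _ ≤ 3 ^ d * ((∏ l, (F l : ℝ)) * ((4 * bd n : ℝ) * (R / r)) ^ expo n F) := by
        refine mul_le_mul_of_nonneg_left (hw.trans ?_) (by positivity)
        gcongr
      _ = _ := by
        rw [Real.mul_rpow (by positivity) (by positivity)]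
        ring
  · rintro s ⟨hs0, C, hC, ρ, hρ, hbound⟩
    have key : ∀ v : ℕ, 0 ≤ v → ((2 : ℝ) ^ v) ^ expo n F
        ≤ ((∏ l, (F l : ℝ)) * (3 ^ d * (C * (2 * bd n : ℝ) ^ s))) * ((2 : ℝ) ^ v) ^ s := by
      intro v _
      obtain ⟨X₀, hX₀⟩ := exists_nat_ge ((bd n : ℝ) / ρ)
      obtain ⟨X, hXX, hX1, ω, hω⟩ := exists_special h hd f v X₀
      have hX' : (0 : ℝ) < X := by exact_mod_cast hX1
      set Y := X * 2 ^ v with hY
      have hXY : X ≤ Y := Nat.le_mul_of_pos_right _ (by positivity)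
      have hY1 : 1 ≤ Y := hX1.trans hXY
      have hY' : (0 : ℝ) < Y := by exact_mod_cast hY1
      have hYX : (Y : ℝ) / X = 2 ^ v := by
        rw [hY]
        push_cast
        field_simp
      set R : ℝ := bd n / X with hR
      set r : ℝ := 1 / (2 * Y) with hr
      have hr0 : 0 < r := by positivity
      have hR0 : 0 < R := by positivity
      have hRρ : R ≤ ρ := by
        rw [hR, div_le_iff₀ hX']
        have h1 : (X₀ : ℝ) ≤ X := by exact_mod_cast hXX
        rw [div_le_iff₀ hρ] at hX₀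
        nlinarith
      have hRr : R / r = 2 * bd n * 2 ^ v := by
        rw [← hYX, hR, hr]
        field_simp
      have hrR : r < R := by
        have h1 : 1 < R / r := by
          rw [hRr]
          have : (1 : ℝ) ≤ 2 ^ v := one_le_pow₀ (by norm_num)
          nlinarith
        rwa [one_lt_div hr0] at h1
      have h1 := hbound r R hr0 hrR hRρ _ ⟨ω, rfl⟩
      have hRX : (bd n : ℝ) ≤ R * X := by rw [hR, div_mul_cancel₀ _ hX'.ne']
      have hrY : r * Y < 1 := by
        rw [hr, one_div, inv_mul_lt_iff₀ (by positivity)]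
        linarith
      have h2 := le_covNum_ball h hd hX1 hY1 hr0 hRX hrY ω (winProd n F X Y) (by
          intro ω' hω'
          have h3 : ∀ j, NbAt n g j X ω ω' := by
            intro j
            have : U n g j (Nat.log (n j) X) ω' = U n g j (Nat.log (n j) X) ω :=
              num_congr (hω' j)
            unfold NbAt
            rw [this]
            exact Nb.refl _
          rw [prodN_eq_winProd h hXY ω' (hω ω' h3), prodN_congr h hω'])
      have h3 : (winProd n F X Y : ℝ)
          ≤ 3 ^ d * (covNum r (Metric.ball (tau n g ω) R ∩ Set.range (tau n g)) : ℝ) := by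
        exact_mod_cast h2
      have h4 := le_winProd h.one_lt hF1 hX1 hXY
      rw [hYX] at h4
      calc ((2 : ℝ) ^ v) ^ expo n F ≤ (∏ l, (F l : ℝ)) * (winProd n F X Y : ℝ) := h4
        _ ≤ (∏ l, (F l : ℝ)) * (3 ^ d * (C * (R / r) ^ s)) := by
          gcongr
          exact h3.trans (by gcongr)
        _ = _ := by
          rw [hRr, Real.mul_rpow (by positivity) (by positivity)]
          ring
    exact le_of_two_pow 0 key

/-- The lower dimension is at most the lower exponent. -/
lemma dimL_le_expo (h : Data n g) (hd : 0 < d) (f : Fin d → A) :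
    dimL (Set.range (tau n g)) ≤ expo n (fun l => cnt g l (f l)) := by
  set F : Fin d → ℕ := fun l => cnt g l (f l) with hF
  have hF1 : ∀ l, 1 ≤ F l := fun l => one_le_cnt _ _
  have hB := one_le_bd h hd
  have hB' : (1 : ℝ) ≤ bd n := by exact_mod_cast hB
  have hPF : (0 : ℝ) < ∏ l, (F l : ℝ) := prod_pos fun l _ => by exact_mod_cast hF1 l
  have he := expo_nonneg (n := n) F
  refine Real.sSup_le ?_ he
  rintro s ⟨hs0, C, hC, ρ, hρ, hbound⟩
  have key : ∀ v : ℕ, bd n ≤ v → ((2 : ℝ) ^ v) ^ s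
      ≤ ((C * (bd n : ℝ)⁻¹ ^ s)⁻¹ * (3 ^ d * (∏ l, (F l : ℝ)))) * ((2 : ℝ) ^ v) ^ expo n F := by
    intro v hv
    obtain ⟨X₀, hX₀⟩ := exists_nat_ge (1 / ρ)
    obtain ⟨X, hXX, hX1, ω, hω⟩ := exists_special h hd f v X₀
    have hX' : (0 : ℝ) < X := by exact_mod_cast hX1
    set Y := X * 2 ^ v with hY
    have hXY : X ≤ Y := Nat.le_mul_of_pos_right _ (by positivity)
    have hY1 : 1 ≤ Y := hX1.trans hXY
    have hY' : (0 : ℝ) < Y := by exact_mod_cast hY1
    have hYX : (Y : ℝ) / X = 2 ^ v := by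
      rw [hY]
      push_cast
      field_simp
    set R : ℝ := 1 / X with hR
    set r : ℝ := bd n / Y with hr
    have hr0 : 0 < r := by positivity
    have hR0 : 0 < R := by positivity
    have hRρ : R ≤ ρ := by
      rw [hR, div_le_iff₀ hX']
      have h1 : (X₀ : ℝ) ≤ X := by exact_mod_cast hXX
      rw [div_le_iff₀ hρ] at hX₀
      nlinarith
    have hRr : R / r = (bd n : ℝ)⁻¹ * 2 ^ v := by
      rw [← hYX, hR, hr]
      field_simp
    have hrR : r < R := by
      have h1 : 1 < R / r := by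
        rw [hRr, lt_inv_mul_iff₀ (by positivity), mul_one]
        have h2 : bd n < 2 ^ v := (Nat.lt_two_pow_self).trans_le
          (Nat.pow_le_pow_right (by norm_num) hv)
        exact_mod_cast h2
      rwa [one_lt_div hr0] at h1
    have h1 := hbound r R hr0 hrR hRρ _ ⟨ω, rfl⟩
    have hRX : R * X ≤ 1 := by rw [hR, div_mul_cancel₀ _ hX'.ne']
    have hrY : (bd n : ℝ) ≤ r * Y := by rw [hr, div_mul_cancel₀ _ hY'.ne']
    have h2 := covNum_ball_le h hd hX1 hXY hRX hrY ω (winProd n F X Y)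
        (fun ω' h3 => (prodN_eq_winProd h hXY ω' (hω ω' h3)).le)
    have h3 : (covNum r (Metric.ball (tau n g ω) R ∩ Set.range (tau n g)) : ℝ)
        ≤ 3 ^ d * (winProd n F X Y : ℝ) := by
      exact_mod_cast h2
    have h4 := winProd_le h.one_lt hF1 hX1 hXY
    rw [hYX] at h4
    have h5 : C * (bd n : ℝ)⁻¹ ^ s * ((2 : ℝ) ^ v) ^ s
        ≤ 3 ^ d * ((∏ l, (F l : ℝ)) * ((2 : ℝ) ^ v) ^ expo n F) := by
      rw [hRr, Real.mul_rpow (by positivity) (by positivity), ← mul_assoc] at h1
      exact h1.trans (h3.trans (by gcongr))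
    have hcpos : 0 < C * (bd n : ℝ)⁻¹ ^ s := by positivity
    rw [mul_assoc, le_inv_mul_iff₀ hcpos]
    exact h5.trans (le_of_eq (by ring))
  exact le_of_two_pow _ key

end Pool.Agent.Lib_MP_8460ec_an
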