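import Pool.Agent.Lib_MP_8460ec_an.Nu

/-!
# Corrected counts
-/

set_option linter.unusedSectionVars false
set_option linter.unusedVariables false

open Finset MeasureTheory
open scoped ENNReal

namespace Pool.Agent.Lib_MP_8460ec_an

variable {d : ℕ} {A : Type} [Fintype A] {n : Fin d → ℕ} {g : A → Fin d → ℕ}

/-- The integer formed by the first `m` digits of the `j`-th coordinate. -/
def U (n : Fin d → ℕ) (g : A → Fin d → ℕ) (j : Fin d) (m : ℕ) (ω : ℕ → A) : ℕ :=
  num (n j) (fun s => g (ω s) j) m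

lemma dig_lt (h : Data n g) (j : Fin d) (ω : ℕ → A) : ∀ s, (fun s => g (ω s) j) s < n j :=
  fun s => h.lt _ _

/-- The integers of `ω` and `ω'` in coordinate `j` are neighbours at level `x`. -/
def NbAt (n : Fin d → ℕ) (g : A → Fin d → ℕ) (j : Fin d) (x : ℕ) (ω ω' : ℕ → A) : Prop :=
  Nb (U n g j (Nat.log (n j) x) ω) (U n g j (Nat.log (n j) x) ω')

lemma NbAt.of_le (h : Data n g) {j : Fin d} {x y : ℕ} (hxy : x ≤ y) {ω ω' : ℕ → A}
    (hn : NbAt n g j y ω ω') : NbAt n g j x ω ω' :=
  nb_of_le (dig_lt h j ω) (dig_lt h j ω') (Nat.log_mono_right hxy) hn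

/-- `ω` and `ω'` are equivalent at level `x` in the coordinates before `l`: in each of them the
integers are equal or neighbours across a digit boundary. -/
def Cls (n : Fin d → ℕ) (g : A → Fin d → ℕ) (l : Fin d) (x : ℕ) (ω ω' : ℕ → A) : Prop :=
  ∀ j < l, Rel (n j) (U n g j (Nat.log (n j) x) ω) (U n g j (Nat.log (n j) x) ω')

lemma Cls.refl (l : Fin d) (x : ℕ) (ω : ℕ → A) : Cls n g l x ω ω := fun _ _ => Rel.refl _ _

lemma Cls.symm {l : Fin d} {x : ℕ} {ω ω' : ℕ → A} (h : Cls n g l x ω ω') : Cls n g l x ω' ω :=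
  fun j hj => (h j hj).symm

lemma Cls.trans (hd : Data n g) {l : Fin d} {x : ℕ} {ω ω' ω'' : ℕ → A} (h : Cls n g l x ω ω')
    (h' : Cls n g l x ω' ω'') : Cls n g l x ω ω'' :=
  fun j hj => (h j hj).trans (hd.one_lt j) (h' j hj)

open Classical in
/-- The corrected count: the maximal count over the class of `ω`. -/
noncomputable def cntT (n : Fin d → ℕ) (g : A → Fin d → ℕ) (l : Fin d) (t : ℕ) (ω : ℕ → A) : ℕ :=
  (univ.filter fun a : A => ∃ ω', Cls n g l (n l ^ (t + 1)) ω ω' ∧ ω' t = a).sup (cnt g l)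

lemma cnt_le_cntT (l : Fin d) (t : ℕ) (ω : ℕ → A) : cnt g l (ω t) ≤ cntT n g l t ω := by
  classical
  rw [cntT]
  apply Finset.le_sup (f := cnt g l)
  rw [mem_filter]
  exact ⟨mem_univ _, ω, Cls.refl _ _ _, rfl⟩

lemma exists_cntT (l : Fin d) (t : ℕ) (ω : ℕ → A) :
    ∃ ω' : ℕ → A, Cls n g l (n l ^ (t + 1)) ω ω' ∧ cntT n g l t ω = cnt g l (ω' t) := by
  classical
  have hne : (univ.filter fun a : A => ∃ ω', Cls n g l (n l ^ (t + 1)) ω ω' ∧ ω' t = a).Nonempty :=
    ⟨ω t, by rw [mem_filter]; exact ⟨mem_univ _, ω, Cls.refl _ _ _, rfl⟩⟩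
  obtain ⟨a, ha, hmax⟩ := Finset.exists_mem_eq_sup _ hne (cnt g l)
  rw [mem_filter] at ha
  obtain ⟨_, ω', hω', rfl⟩ := ha
  exact ⟨ω', hω', hmax⟩

lemma cntT_congr (hd : Data n g) {l : Fin d} {t : ℕ} {ω ω' : ℕ → A}
    (h : Cls n g l (n l ^ (t + 1)) ω ω') : cntT n g l t ω = cntT n g l t ω' := by
  classical
  rw [cntT, cntT]
  congr 1
  ext a
  simp only [mem_filter, mem_univ, true_and]
  constructor
  · rintro ⟨ω'', h1, h2⟩
    exact ⟨ω'', h.symm.trans hd h1, h2⟩
  · rintro ⟨ω'', h1, h2⟩
    exact ⟨ω'', h.trans hd h1, h2⟩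

lemma one_le_cntT (l : Fin d) (t : ℕ) (ω : ℕ → A) : 1 ≤ cntT n g l t ω :=
  (one_le_cnt l (ω t)).trans (cnt_le_cntT l t ω)

/-- A common bound for all counts. -/
def bd (n : Fin d → ℕ) : ℕ := ∑ l, n l

lemma n_le_bd (l : Fin d) : n l ≤ bd n := single_le_sum (f := n) (fun _ _ => Nat.zero_le _)
  (mem_univ l)

lemma cntT_le (h : Data n g) (l : Fin d) (t : ℕ) (ω : ℕ → A) : cntT n g l t ω ≤ bd n := by
  obtain ⟨ω', _, h2⟩ := exists_cntT (n := n) (g := g) l t ω
  rw [h2]
  exact (cnt_le h _ _).trans (n_le_bd l)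

/-- The corrected counts are visible in the cube. -/
lemma cntT_congr_cyl (h : Data n g) {l : Fin d} {t x : ℕ} (ht : t < Nat.log (n l) x)
    {ω ω' : ℕ → A} (hω : ω' ∈ cyl n g x ω) : cntT n g l t ω' = cntT n g l t ω := by
  apply cntT_congr h
  intro j hj
  left
  apply num_congr
  intro s hs
  refine hω j s (lt_of_lt_of_le hs (Nat.log_mono_right ?_))
  have h1 : x ≠ 0 := by
    rintro rfl
    simp at ht
  exact Nat.pow_le_of_le_log h1 ht

/-- The product of the corrected counts at level `x`. -/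
noncomputable def prodT (n : Fin d → ℕ) (g : A → Fin d → ℕ) (x : ℕ) (ω : ℕ → A) : ℕ :=
  ∏ l, ∏ t ∈ range (Nat.log (n l) x), cntT n g l t ω

/-- Neighbouring cubes have comparable weights. -/
lemma prodT_le_of_nb (h : Data n g) {x : ℕ} {ω ω' : ℕ → A} (hn : ∀ j, NbAt n g j x ω ω') :
    prodT n g x ω ≤ bd n ^ (d * d) * prodT n g x ω' := by
  classical
  have key : ∀ l : Fin d, ∏ t ∈ range (Nat.log (n l) x), cntT n g l t ω
      ≤ bd n ^ d * ∏ t ∈ range (Nat.log (n l) x), cntT n g l t ω' := by
    intro l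
    have hbd : 1 ≤ bd n := by
      have := h.one_lt l
      have := n_le_bd (n := n) l
      omega
    -- the exceptional indices
    set S : Finset ℕ := (range (Nat.log (n l) x)).filter
      (fun t => ¬ Cls n g l (n l ^ (t + 1)) ω ω') with hS
    have hx : ∀ t ∈ range (Nat.log (n l) x), n l ^ (t + 1) ≤ x := by
      intro t ht
      rw [mem_range] at ht
      have h1 : x ≠ 0 := by
        rintro rfl
        simp at ht
      exact Nat.pow_le_of_le_log h1 ht
    have hcard : S.card ≤ d := by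
      -- choose for each exceptional index the coordinate
      have hex : ∀ t ∈ S, ∃ j : Fin d, j < l ∧
          U n g j (Nat.log (n j) (n l ^ (t + 1)) - 1) ω
            = U n g j (Nat.log (n j) (n l ^ (t + 1)) - 1) ω' ∧
          U n g j (Nat.log (n j) (n l ^ (t + 1))) ω
            ≠ U n g j (Nat.log (n j) (n l ^ (t + 1))) ω' := by
        intro t ht
        rw [hS, mem_filter] at ht
        obtain ⟨ht1, ht2⟩ := ht
        unfold Cls at ht2
        push Not at ht2
        obtain ⟨j, hj, hr⟩ := ht2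
        obtain ⟨h1, h2, _⟩ := num_eq_of_not_rel (dig_lt h j ω) (dig_lt h j ω')
          ((hn j).of_le h (hx t ht1)) hr
        exact ⟨j, hj, h1, h2⟩
      have : Nonempty (Fin d) := ⟨l⟩
      choose! J hJ using hex
      have hinj : Set.InjOn J S := by
        have aux : ∀ t ∈ S, ∀ t' ∈ S, t < t' → J t ≠ J t' := by
          intro t ht t' ht' htt hJJ
          obtain ⟨h1, h2, h3⟩ := hJ t ht
          obtain ⟨_, h5, _⟩ := hJ t' ht'
          rw [← hJJ] at h5
          apply h3
          apply num_congr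
          intro s hs
          have hlt : Nat.log (n (J t)) (n l ^ (t + 1)) < Nat.log (n (J t)) (n l ^ (t' + 1)) := by
            have hb := h.one_lt (J t)
            have h6 : n (J t) ^ (Nat.log (n (J t)) (n l ^ (t + 1)) + 1) ≤ n l ^ (t' + 1) := by
              have h7 : n (J t) ^ Nat.log (n (J t)) (n l ^ (t + 1)) ≤ n l ^ (t + 1) :=
                Nat.pow_log_le_self _ (pow_ne_zero _ (by have := h.one_lt l; omega))
              calc n (J t) ^ (Nat.log (n (J t)) (n l ^ (t + 1)) + 1)
                  ≤ n l ^ (t + 1) * n l := by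
                    rw [pow_succ]
                    exact Nat.mul_le_mul h7 (h.mono.monotone h1.le)
                _ = n l ^ (t + 2) := by rw [← pow_succ]
                _ ≤ n l ^ (t' + 1) := Nat.pow_le_pow_right (by have := h.one_lt l; omega)
                    (by omega)
            have := Nat.le_log_of_pow_le hb h6
            omega
          exact digits_eq_of_num_eq (dig_lt h _ ω) (dig_lt h _ ω') h5 s (by omega)
        intro t ht t' ht' hJJ
        rcases lt_trichotomy t t' with h1 | h1 | h1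
        · exact (aux t ht t' ht' h1 hJJ).elim
        · exact h1
        · exact (aux t' ht' t ht h1 hJJ.symm).elim
      calc S.card = (S.image J).card := (card_image_of_injOn hinj).symm
        _ ≤ (univ : Finset (Fin d)).card := card_le_card (subset_univ _)
        _ = d := by simp
    have h2 : ∏ t ∈ range (Nat.log (n l) x), cntT n g l t ω
        ≤ ∏ t ∈ range (Nat.log (n l) x), ((if t ∈ S then bd n else 1) * cntT n g l t ω') := by
      refine prod_le_prod' fun t ht => ?_
      split_ifs with htS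
      · calc cntT n g l t ω ≤ bd n * 1 := by
              rw [mul_one]
              exact cntT_le h _ _ _
          _ ≤ bd n * cntT n g l t ω' := Nat.mul_le_mul_left _ (one_le_cntT _ _ _)
      · rw [one_mul]
        have : Cls n g l (n l ^ (t + 1)) ω ω' := by
          by_contra hc
          exact htS (by rw [hS, mem_filter]; exact ⟨ht, hc⟩)
        exact (cntT_congr h this).le
    refine h2.trans ?_
    rw [prod_mul_distrib]
    refine Nat.mul_le_mul_right _ ?_
    rw [prod_ite, prod_const_one, mul_one, prod_const]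
    refine Nat.pow_le_pow_right hbd (le_trans (card_le_card ?_) hcard)
    intro t ht
    exact (mem_filter.mp ht).2
  calc prodT n g x ω ≤ ∏ l : Fin d, (bd n ^ d * ∏ t ∈ range (Nat.log (n l) x), cntT n g l t ω') :=
        prod_le_prod' fun l _ => key l
    _ = bd n ^ (d * d) * prodT n g x ω' := by
        rw [prod_mul_distrib, prod_const, card_univ, Fintype.card_fin, ← pow_mul, prodT]

/-- If the corrected count differs from the count, then there is a neighbour with a different
digit. -/
lemma exists_of_cntT_ne (h : Data n g) {l : Fin d} {t : ℕ} {ω : ℕ → A}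
    (hne : cntT n g l t ω ≠ cnt g l (ω t)) :
    ∃ ω' : ℕ → A, (∀ j < l, NbAt n g j (n l ^ (t + 1)) ω ω') ∧
      ∃ j < l, g (ω t) j ≠ g (ω' t) j := by
  obtain ⟨ω', h1, h2⟩ := exists_cntT (n := n) (g := g) l t ω
  refine ⟨ω', fun j hj => (h1 j hj).nb, ?_⟩
  by_contra hc
  push Not at hc
  apply hne
  rw [h2]
  exact cnt_congr fun j hj => (hc j hj).symm

/-- Pigeonhole: along `c` interpolated levels some coordinate stays the first one in which
`ω` and `ω'` differ, and so has a long window of extreme digits. -/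
lemma exists_window (h : Data n g) {X : ℕ} {l : Fin d} {ω ω' : ℕ → A} (m : ℕ → ℕ)
    (hm : Monotone m) (hn : ∀ j < l, NbAt n g j X ω ω') (c : ℕ) :
    ∀ i, m (i + c) ≤ X → (∃ j < l, j.1 < c ∧
      U n g j (Nat.log (n j) (m i)) ω ≠ U n g j (Nat.log (n j) (m i)) ω') →
    ∃ k, i ≤ k ∧ k < i + c ∧ ∃ j : Fin d, ∃ e, (e = 0 ∨ e = n j - 1) ∧
      ∀ s, Nat.log (n j) (m k) ≤ s → s < Nat.log (n j) (m (k + 1)) →
        g (ω s) j = e ∧ 2 ≤ cnt g j (ω s) := by
  induction c with
  | zero =>
    rintro i _ ⟨j, _, hj, _⟩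
    omega
  | succ c ih =>
    rintro i hX ⟨j, hjl, hjc, hne⟩
    by_cases hex : ∃ j' < l, j'.1 < c ∧
      U n g j' (Nat.log (n j') (m (i + 1))) ω ≠ U n g j' (Nat.log (n j') (m (i + 1))) ω'
    · obtain ⟨k, h1, h2, h3⟩ := ih (i + 1) (by rw [show i + 1 + c = i + (c + 1) by ring]; exact hX)
        hex
      exact ⟨k, by omega, by omega, h3⟩
    · push Not at hex
      refine ⟨i, le_rfl, by omega, j, ?_⟩
      have hlogle : Nat.log (n j) (m i) ≤ Nat.log (n j) (m (i + 1)) :=
        Nat.log_mono_right (hm (Nat.le_succ i))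
      have hjc' : j.1 = c := by
        by_contra hcc
        exact num_ne_of_le (dig_lt h j ω) (dig_lt h j ω') hlogle hne (hex j hjl (by omega))
      have hnb : Nb (U n g j (Nat.log (n j) (m (i + 1))) ω)
          (U n g j (Nat.log (n j) (m (i + 1))) ω') :=
        (hn j hjl).of_le h ((hm (by omega)).trans hX)
      obtain ⟨e, he, hrun⟩ := extreme_of_nb (dig_lt h j ω) (dig_lt h j ω') hlogle hne hnb
      refine ⟨e, he, fun s hs hs' => ?_⟩
      obtain ⟨h1, h2⟩ := hrun s hs hs'
      refine ⟨h1, two_le_cnt (b := ω' s) (fun j' hj' => ?_) ?_⟩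
      · have h3 := hex j' (hj'.trans hjl) (by have : j'.1 < j.1 := hj'; omega)
        have h4 := digits_eq_of_num_eq (dig_lt h j' ω) (dig_lt h j' ω') h3 s
          (lt_of_lt_of_le hs' (log_anti h _ hj'.le))
        exact h4.symm
      · have hb := h.one_lt j
        change g (ω s) j = e at h1
        change g (ω' s) j = n j - 1 - e at h2
        rw [h1, h2]
        rcases he with rfl | rfl <;> omega

end Pool.Agent.Lib_MP_8460ec_an
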