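import Mathlib

/-!
# Digit words and neighbouring integers
-/

namespace Pool.Agent.Lib_MP_8460ec_an

/-- The integer with base `b` digits `u 0, ..., u (m - 1)`, most significant digit first. -/
def num (b : ℕ) (u : ℕ → ℕ) : ℕ → ℕ
  | 0 => 0
  | m + 1 => num b u m * b + u m

/-- `a` and `a'` are equal or neighbours. -/
def Nb (a a' : ℕ) : Prop := a ≤ a' + 1 ∧ a' ≤ a + 1

lemma Nb.refl (a : ℕ) : Nb a a := ⟨by omega, by omega⟩

lemma Nb.symm {a a' : ℕ} (h : Nb a a') : Nb a' a := ⟨h.2, h.1⟩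

variable {b : ℕ} {u v w : ℕ → ℕ}

lemma num_zero : num b u 0 = 0 := rfl

lemma num_succ (m : ℕ) : num b u (m + 1) = num b u m * b + u m := rfl

lemma num_congr {m : ℕ} (h : ∀ s < m, u s = v s) : num b u m = num b v m := by
  induction m with
  | zero => rfl
  | succ m ih =>
    rw [num_succ, num_succ, ih (fun s hs => h s (by omega)), h m (by omega)]

lemma nb_of_succ (hu : ∀ s, u s < b) (hv : ∀ s, v s < b) {m : ℕ}
    (h : Nb (num b u (m + 1)) (num b v (m + 1))) : Nb (num b u m) (num b v m) := by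
  have h1 := hu m
  have h2 := hv m
  rw [num_succ, num_succ] at h
  obtain ⟨h3, h4⟩ := h
  constructor
  · by_contra hc
    push Not at hc
    have : (num b v m + 2) * b ≤ num b u m * b := Nat.mul_le_mul_right b (by omega)
    rw [add_mul] at this
    omega
  · by_contra hc
    push Not at hc
    have : (num b u m + 2) * b ≤ num b v m * b := Nat.mul_le_mul_right b (by omega)
    rw [add_mul] at this
    omega

lemma nb_of_le (hu : ∀ s, u s < b) (hv : ∀ s, v s < b) {m m' : ℕ} (hm : m ≤ m')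
    (h : Nb (num b u m') (num b v m')) : Nb (num b u m) (num b v m) := by
  induction m', hm using Nat.le_induction with
  | base => exact h
  | succ m' _ ih => exact ih (nb_of_succ hu hv h)

lemma digits_eq_of_num_eq (hu : ∀ s, u s < b) (hv : ∀ s, v s < b) {m : ℕ}
    (h : num b u m = num b v m) : ∀ s < m, u s = v s := by
  induction m with
  | zero => intro s hs; omega
  | succ m ih =>
    have h1 := hu m
    have h2 := hv m
    have hb : 0 < b := by omega
    rw [num_succ, num_succ] at h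
    have h3 : u m = v m := by
      have := congrArg (· % b) h
      simpa [Nat.mod_eq_of_lt h1, Nat.mod_eq_of_lt h2] using this
    have h4 : num b u m = num b v m := by
      rw [h3] at h
      exact Nat.eq_of_mul_eq_mul_right hb (by omega)
    intro s hs
    rcases Nat.lt_succ_iff_lt_or_eq.mp hs with hs | rfl
    · exact ih h4 s hs
    · exact h3

lemma num_ne_of_le (hu : ∀ s, u s < b) (hv : ∀ s, v s < b) {m m' : ℕ} (hm : m ≤ m')
    (h : num b u m ≠ num b v m) : num b u m' ≠ num b v m' := by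
  intro h'
  exact h (num_congr fun s hs => digits_eq_of_num_eq hu hv h' s (by omega))

/-- Once two neighbouring words are different, their digits are extreme. -/
lemma run_of_nb (hu : ∀ s, u s < b) (hv : ∀ s, v s < b) {m m' : ℕ} (hm : m ≤ m')
    (h : num b v m = num b u m + 1) (hn : Nb (num b u m') (num b v m')) :
    num b v m' = num b u m' + 1 ∧ ∀ s, m ≤ s → s < m' → u s = b - 1 ∧ v s = 0 := by
  induction m', hm using Nat.le_induction with
  | base => exact ⟨h, fun s h1 h2 => by omega⟩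
  | succ m' hm' ih =>
    obtain ⟨h1, h2⟩ := ih (nb_of_succ hu hv hn)
    have h3 := hu m'
    have h4 := hv m'
    rw [num_succ, num_succ, h1] at hn
    rw [num_succ, num_succ, h1]
    have h5 := hn.2
    rw [add_mul] at h5 ⊢
    refine ⟨by omega, fun s hs hs' => ?_⟩
    rcases Nat.lt_succ_iff_lt_or_eq.mp hs' with hs' | rfl
    · exact h2 s hs hs'
    · exact ⟨by omega, by omega⟩

/-- The same statement without fixing the order. -/
lemma extreme_of_nb (hu : ∀ s, u s < b) (hv : ∀ s, v s < b) {m m' : ℕ} (hm : m ≤ m')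
    (h : num b u m ≠ num b v m) (hn : Nb (num b u m') (num b v m')) :
    ∃ e, (e = 0 ∨ e = b - 1) ∧ ∀ s, m ≤ s → s < m' → u s = e ∧ v s = b - 1 - e := by
  have h0 := nb_of_le hu hv hm hn
  obtain ⟨h1, h2⟩ := h0
  rcases Nat.lt_or_gt_of_ne h with h | h
  · obtain ⟨_, h4⟩ := run_of_nb hu hv hm (by omega) hn
    refine ⟨b - 1, Or.inr rfl, fun s hs hs' => ?_⟩
    obtain ⟨h5, h6⟩ := h4 s hs hs'
    exact ⟨h5, by omega⟩
  · obtain ⟨_, h4⟩ := run_of_nb hv hu hm (by omega) hn.symm
    refine ⟨0, Or.inl rfl, fun s hs hs' => ?_⟩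
    obtain ⟨h5, h6⟩ := h4 s hs hs'
    exact ⟨h6, by omega⟩

/-- `a` and `a'` are equal, or neighbours separated by a multiple of `b`. -/
def Rel (b a a' : ℕ) : Prop := a = a' ∨ (a' = a + 1 ∧ b ∣ a') ∨ (a = a' + 1 ∧ b ∣ a)

lemma Rel.refl (b a : ℕ) : Rel b a a := Or.inl rfl

lemma Rel.symm {a a' : ℕ} (h : Rel b a a') : Rel b a' a := by
  rcases h with h | h | h
  · exact Or.inl h.symm
  · exact Or.inr (Or.inr h)
  · exact Or.inr (Or.inl h)

lemma Rel.trans (hb : 2 ≤ b) {a a' a'' : ℕ} (h : Rel b a a') (h' : Rel b a' a'') :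
    Rel b a a'' := by
  have key : ∀ c : ℕ, b ∣ c → b ∣ c + 1 → False := by
    intro c h1 h2
    have := (Nat.dvd_add_right h1).mp h2
    have := Nat.le_of_dvd one_pos this
    omega
  rcases h with rfl | ⟨h1, h2⟩ | ⟨h1, h2⟩
  · exact h'
  · rcases h' with rfl | ⟨h3, h4⟩ | ⟨h3, h4⟩
    · exact Or.inr (Or.inl ⟨h1, h2⟩)
    · subst h3
      exact (key _ h2 h4).elim
    · exact Or.inl (by omega)
  · rcases h' with rfl | ⟨h3, h4⟩ | ⟨h3, h4⟩
    · exact Or.inr (Or.inr ⟨h1, h2⟩)
    · exact Or.inl (by omega)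
    · subst h1
      exact (key _ h4 h2).elim

lemma Rel.nb {a a' : ℕ} (h : Rel b a a') : Nb a a' := by
  rcases h with h | h | h <;> constructor <;> omega

/-- If two neighbouring words are not related, they differ in the last digit only. -/
lemma num_eq_of_not_rel (hu : ∀ s, u s < b) (hv : ∀ s, v s < b) {m : ℕ}
    (hn : Nb (num b u m) (num b v m)) (h : ¬ Rel b (num b u m) (num b v m)) :
    num b u (m - 1) = num b v (m - 1) ∧ num b u m ≠ num b v m ∧ 1 ≤ m := by
  have hne : num b u m ≠ num b v m := fun h' => h (Or.inl h')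
  have hm : 1 ≤ m := by
    rcases Nat.eq_zero_or_pos m with rfl | hm
    · exact (hne rfl).elim
    · exact hm
  refine ⟨?_, hne, hm⟩
  by_contra hc
  obtain ⟨k, rfl⟩ : ∃ k, m = k + 1 := ⟨m - 1, by omega⟩
  simp only [Nat.add_sub_cancel] at hc
  rcases Nat.lt_or_gt_of_ne hc with hc | hc
  · have h0 := nb_of_succ hu hv hn
    obtain ⟨h1, h2⟩ := run_of_nb hu hv (Nat.le_succ k) (m' := k + 1) (by have := h0.2; omega) hn
    obtain ⟨_, h4⟩ := h2 k le_rfl (Nat.lt_succ_self k)
    apply h
    refine Or.inr (Or.inl ⟨h1, ?_⟩)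
    rw [num_succ, h4, add_zero]
    exact Dvd.intro_left _ rfl
  · have h0 := nb_of_succ hu hv hn
    obtain ⟨h1, h2⟩ := run_of_nb hv hu (Nat.le_succ k) (m' := k + 1)
      (by have := h0.1; omega) hn.symm
    obtain ⟨_, h4⟩ := h2 k le_rfl (Nat.lt_succ_self k)
    apply h
    refine Or.inr (Or.inr ⟨h1, ?_⟩)
    rw [num_succ, h4, add_zero]
    exact Dvd.intro_left _ rfl

end Pool.Agent.Lib_MP_8460ec_an
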